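import Mathlib

/-!
Measures with metrizable-like support (MP_5a7e2f_gt), part A: general lemmas (transfinite
recursion, sets depending on few coordinates, weak convergence on closed subsets of cubes, limits
of regular probability measures along ultrafilters).
-/

open MeasureTheory Set Topology Filter
open scoped ENNReal NNReal BoundedContinuousFunction CompactlySupported

namespace Pool.Agent.Y443.MS

/-- Transfinite recursion with choices. -/
theorem exists_rec {I D : Type*} [LinearOrder I] [WellFoundedLT I] [Nonempty D]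
    (P : I → (I → D) → D → Prop)
    (hloc : ∀ b f g d, (∀ x, x < b → f x = g x) → P b f d → P b g d)
    (hex : ∀ b f, (∀ x, x < b → P x f (f x)) → ∃ d, P b f d) :
    ∃ F : I → D, ∀ b, P b F (F b) := by
  classical
  obtain ⟨d0⟩ := ‹Nonempty D›
  have wf : WellFounded (fun x y : I => x < y) := wellFounded_lt
  let step : (b : I) → ((x : I) → x < b → D) → D := fun b IH =>
    if h : ∃ d, P b (fun x => if hx : x < b then IH x hx else d0) d then h.choose else d0
  let F : I → D := wf.fix step
  refine ⟨F, fun b => ?_⟩
  induction b using wf.induction with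
  | _ b ih =>
    have hF : F b = step b (fun x _ => F x) := wf.fix_eq step b
    set f : I → D := fun x => if x < b then F x else d0 with hf
    have hfF : ∀ x, x < b → f x = F x := fun x hx => by simp [hf, hx]
    have hex' : ∃ d, P b f d := by
      refine hex b f fun x hx => ?_
      rw [hfF x hx]
      exact hloc x F f (F x) (fun y hy => (hfF y (hy.trans hx)).symm) (ih x hx)
    have hFb : F b = hex'.choose := by
      rw [hF]
      have he : (fun x => if hx : x < b then (fun x (_ : x < b) => F x) x hx else d0) = f := by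
        funext x
        by_cases hx : x < b <;> simp [hf, hx]
      show (if h : ∃ d, P b (fun x => if hx : x < b then (fun x (_ : x < b) => F x) x hx else d0) d
        then h.choose else d0) = _
      simp only [he]
      rw [dif_pos hex']
    have h1 : P b f (F b) := by
      rw [hFb]
      exact hex'.choose_spec
    exact hloc b f F (F b) hfF h1

section Dep

variable {J : Type*}

/-- The set `W` depends only on the coordinates in `s`. -/
def Dep (s : Set J) (W : Set (J → Bool)) : Prop :=
  ∀ x y : J → Bool, (∀ i ∈ s, x i = y i) → x ∈ W → y ∈ W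

theorem Dep.mono {s t : Set J} {W : Set (J → Bool)} (h : Dep s W) (hst : s ⊆ t) : Dep t W :=
  fun x y hxy hx => h x y (fun i hi => hxy i (hst hi)) hx

theorem Dep.compl {s : Set J} {W : Set (J → Bool)} (h : Dep s W) : Dep s Wᶜ :=
  fun x y hxy hx hy => hx (h y x (fun i hi => (hxy i hi).symm) hy)

theorem Dep.inter {s : Set J} {W W' : Set (J → Bool)} (h : Dep s W) (h' : Dep s W') :
    Dep s (W ∩ W') := fun x y hxy hx => ⟨h x y hxy hx.1, h' x y hxy hx.2⟩

theorem Dep.union {s : Set J} {W W' : Set (J → Bool)} (h : Dep s W) (h' : Dep s W') :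
    Dep s (W ∪ W') := fun x y hxy hx => hx.imp (h x y hxy) (h' x y hxy)

theorem dep_univ (s : Set J) : Dep s (univ : Set (J → Bool)) := fun _ _ _ _ => mem_univ _

theorem dep_empty (s : Set J) : Dep s (∅ : Set (J → Bool)) := fun _ _ _ h => h

theorem Dep.biUnion {ι : Type*} {s : Set J} (T : Set ι) (W : ι → Set (J → Bool))
    (h : ∀ i ∈ T, Dep s (W i)) : Dep s (⋃ i ∈ T, W i) := by
  intro x y hxy hx
  simp only [mem_iUnion] at hx ⊢
  obtain ⟨i, hi, hx⟩ := hx
  exact ⟨i, hi, h i hi x y hxy hx⟩

/-- A set depending on finitely many coordinates is clopen. -/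
theorem Dep.isClopen {s : Set J} (hs : s.Finite) {W : Set (J → Bool)} (h : Dep s W) :
    IsClopen W := by
  classical
  have : Finite s := hs
  let r : (J → Bool) → (s → Bool) := fun x i => x i
  have hr : Continuous r := continuous_pi fun i => continuous_apply _
  have hW : W = r ⁻¹' (r '' W) := by
    refine Subset.antisymm (subset_preimage_image _ _) ?_
    rintro y ⟨x, hx, hxy⟩
    exact h x y (fun i hi => congrFun hxy ⟨i, hi⟩) hx
  rw [hW]
  exact (isClopen_discrete _).preimage hr

theorem dep_coord (j : J) : Dep {j} {x : J → Bool | x j = true} := by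
  intro x y hxy hx
  have : x j = y j := hxy j rfl
  simp only [mem_ofPred_eq] at hx ⊢
  rw [← this]
  exact hx

/-- Fixing the value of one coordinate. -/
theorem Dep.section' [DecidableEq J] {s : Set J} {W : Set (J → Bool)} (h : Dep s W) (j : J)
    (b : Bool) : Dep (s \ {j}) {x | Function.update x j b ∈ W} := by
  intro x y hxy hx
  refine h _ _ (fun i hi => ?_) hx
  by_cases hij : i = j
  · subst hij; simp
  · simp only [Function.update_of_ne hij]
    exact hxy i ⟨hi, hij⟩

end Dep


section Weak

variable {J : Type*} {K : Set (J → Bool)}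

/-- The positive box. -/
def pbox (s : Finset J) : Set (J → Bool) := {y | ∀ i ∈ s, y i = true}

theorem dep_pbox (s : Finset J) : Dep (s : Set J) (pbox s) := by
  intro x y hxy hx i hi
  rw [← hxy i hi]
  exact hx i hi

theorem isClopen_pbox (s : Finset J) : IsClopen (pbox s) := (dep_pbox s).isClopen s.finite_toSet

/-- The indicator of a clopen set as a continuous function on `K`. -/
noncomputable def ind (K : Set (J → Bool)) (W : Set (J → Bool)) (hW : IsClopen W) : C(K, ℝ) where
  toFun y := W.indicator (fun _ => (1 : ℝ)) y.1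
  continuous_toFun :=
    (hW.continuous_indicator continuous_const).comp continuous_subtype_val

theorem ind_mem {W : Set (J → Bool)} (hW : IsClopen W) {y : K} (hy : y.1 ∈ W) :
    ind K W hW y = 1 := by
  show W.indicator (fun _ => (1 : ℝ)) y.1 = 1
  simp [hy]

theorem ind_notMem {W : Set (J → Bool)} (hW : IsClopen W) {y : K} (hy : y.1 ∉ W) :
    ind K W hW y = 0 := by
  show W.indicator (fun _ => (1 : ℝ)) y.1 = 0
  simp [hy]

theorem integral_ind [MeasurableSpace K] [BorelSpace K] (W : Set (J → Bool)) (hW : IsClopen W)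
    (m : Measure K) : ∫ y, ind K W hW y ∂m = m.real (Subtype.val ⁻¹' W) := by
  have h1 : MeasurableSet (Subtype.val ⁻¹' W : Set K) :=
    (hW.preimage continuous_subtype_val).isOpen.measurableSet
  have h2 : (fun y : K => ind K W hW y) = (Subtype.val ⁻¹' W : Set K).indicator fun _ => 1 := by
    funext y
    by_cases hy : y.1 ∈ W
    · rw [ind_mem hW hy, indicator_of_mem (show y ∈ (Subtype.val ⁻¹' W : Set K) from hy)]
    · rw [ind_notMem hW hy, indicator_of_notMem (show y ∉ (Subtype.val ⁻¹' W : Set K) from hy)]
  rw [h2, integral_indicator_const _ h1]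
  simp

/-- The boxes span a dense subspace. -/
theorem dense_boxes [CompactSpace K] (S : Submodule ℝ C(K, ℝ)) (hS : IsClosed (S : Set C(K, ℝ)))
    (h : ∀ s : Finset J, ind K (pbox s) (isClopen_pbox s) ∈ S) : S = ⊤ := by
  classical
  let e : J → C(K, ℝ) := fun j => ind K (pbox {j}) (isClopen_pbox {j})
  let A : Subalgebra ℝ C(K, ℝ) := Algebra.adjoin ℝ (range e)
  have hcl : ∀ g ∈ Submonoid.closure (range e),
      ∃ s : Finset J, g = ind K (pbox s) (isClopen_pbox s) := by
    intro g hg
    induction hg using Submonoid.closure_induction with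
    | mem x hx =>
      obtain ⟨j, rfl⟩ := hx
      exact ⟨{j}, rfl⟩
    | one =>
      refine ⟨∅, ?_⟩
      ext y
      rw [ind_mem (isClopen_pbox ∅) (by intro i hi; exact absurd hi (Finset.notMem_empty i))]
      rfl
    | mul x y _ _ hx hy =>
      obtain ⟨s, rfl⟩ := hx
      obtain ⟨t, rfl⟩ := hy
      refine ⟨s ∪ t, ?_⟩
      ext y
      rw [ContinuousMap.mul_apply]
      by_cases h1 : y.1 ∈ pbox s <;> by_cases h2 : y.1 ∈ pbox t
      · rw [ind_mem _ h1, ind_mem _ h2, ind_mem, one_mul]
        intro i hi
        rcases Finset.mem_union.1 hi with hi | hi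
        · exact h1 i hi
        · exact h2 i hi
      · rw [ind_notMem _ h2, mul_zero, ind_notMem]
        exact fun h => h2 fun i hi => h i (Finset.mem_union.2 (Or.inr hi))
      · rw [ind_notMem _ h1, zero_mul, ind_notMem]
        exact fun h => h1 fun i hi => h i (Finset.mem_union.2 (Or.inl hi))
      · rw [ind_notMem _ h1, zero_mul, ind_notMem]
        exact fun h => h1 fun i hi => h i (Finset.mem_union.2 (Or.inl hi))
  have hsub : (A : Set C(K, ℝ)) ⊆ S := by
    intro g hg
    have h1 : g ∈ Subalgebra.toSubmodule A := hg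
    rw [Algebra.adjoin_eq_span] at h1
    refine Submodule.span_le.2 ?_ h1
    intro g hg
    obtain ⟨s, rfl⟩ := hcl g hg
    exact h s
  have hsep : A.SeparatesPoints := by
    intro a b hab
    have : ∃ i, a.1 i ≠ b.1 i := by
      by_contra h
      push Not at h
      exact hab (Subtype.ext (funext h))
    obtain ⟨i, hi⟩ := this
    refine ⟨e i, ⟨e i, Algebra.subset_adjoin ⟨i, rfl⟩, rfl⟩, ?_⟩
    have hmem : ∀ c : K, c.1 ∈ pbox {i} ↔ c.1 i = true := by
      intro c
      simp [pbox]
    cases ha : a.1 i <;> cases hb : b.1 i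
    · exact absurd (ha.trans hb.symm) hi
    · rw [show e i a = 0 from ind_notMem _ (by rw [hmem, ha]; simp),
        show e i b = 1 from ind_mem _ (by rw [hmem, hb])]
      norm_num
    · rw [show e i a = 1 from ind_mem _ (by rw [hmem, ha]),
        show e i b = 0 from ind_notMem _ (by rw [hmem, hb]; simp)]
      norm_num
    · exact absurd (ha.trans hb.symm) hi
  have htop := ContinuousMap.subalgebra_topologicalClosure_eq_top_of_separatesPoints A hsep
  rw [eq_top_iff]
  intro f _
  have hf : f ∈ A.topologicalClosure := by rw [htop]; exact Algebra.mem_top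
  have hf' : f ∈ closure (A : Set C(K, ℝ)) := hf
  exact hS.closure_subset_iff.2 hsub hf'

theorem tendsto_of_boxes [CompactSpace K] [MeasurableSpace K] [BorelSpace K] {α : Type*}
    {l : Filter α} (u : α → ProbabilityMeasure K) (ν : ProbabilityMeasure K)
    (h : ∀ s : Finset J, Tendsto (fun a => (u a : Measure K).real (Subtype.val ⁻¹' pbox s)) l
      (𝓝 ((ν : Measure K).real (Subtype.val ⁻¹' pbox s)))) : Tendsto u l (𝓝 ν) := by
  have hint : ∀ (m : ProbabilityMeasure K) (g : C(K, ℝ)), Integrable g (m : Measure K) :=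
    fun m g => Integrable.of_bound g.continuous.aestronglyMeasurable ‖g‖
      (Eventually.of_forall fun y => g.norm_coe_le_norm y)
  let S : Submodule ℝ C(K, ℝ) :=
    { carrier := {g | Tendsto (fun a => ∫ y, g y ∂(u a : Measure K)) l
        (𝓝 (∫ y, g y ∂(ν : Measure K)))}
      add_mem' := by
        intro a b ha hb
        have h1 := Tendsto.add ha hb
        simp only [mem_ofPred_eq, ContinuousMap.add_apply]
        rw [integral_add (hint ν a) (hint ν b)]
        refine h1.congr fun i => ?_
        rw [integral_add (hint (u i) a) (hint (u i) b)]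
      zero_mem' := by
        simp only [mem_ofPred_eq, ContinuousMap.zero_apply, integral_zero]
        exact tendsto_const_nhds
      smul_mem' := by
        intro c g hg
        have h1 := Tendsto.const_mul c hg
        simp only [mem_ofPred_eq, ContinuousMap.smul_apply, smul_eq_mul]
        rw [integral_const_mul]
        refine h1.congr fun i => ?_
        rw [integral_const_mul] }
  have hSc : IsClosed (S : Set C(K, ℝ)) := by
    rw [← isSeqClosed_iff_isClosed]
    intro g f hg hf
    show Tendsto (fun a => ∫ y, f y ∂(u a : Measure K)) l (𝓝 (∫ y, f y ∂(ν : Measure K)))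
    rw [Metric.tendsto_nhds]
    intro ε hε
    obtain ⟨n, hn⟩ := ((Metric.tendsto_nhds.1 hf) (ε / 4) (by linarith)).exists
    have hb : ∀ m : ProbabilityMeasure K,
        |∫ y, f y ∂(m : Measure K) - ∫ y, g n y ∂(m : Measure K)| ≤ ε / 4 := by
      intro m
      rw [← integral_sub (hint m f) (hint m (g n))]
      have h5 := norm_integral_le_of_norm_le_const (μ := (m : Measure K))
        (Eventually.of_forall fun y => by
          have h6 : ‖(f - g n) y‖ ≤ ‖f - g n‖ := (f - g n).norm_coe_le_norm y
          rw [ContinuousMap.sub_apply] at h6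
          have h7 : ‖f - g n‖ < ε / 4 := by rw [← dist_eq_norm, dist_comm]; exact hn
          exact h6.trans h7.le : ∀ᵐ y ∂(m : Measure K), ‖f y - g n y‖ ≤ ε / 4)
      simp only [probReal_univ, mul_one] at h5
      exact h5
    filter_upwards [(Metric.tendsto_nhds.1 (hg n)) (ε / 4) (by linarith)] with a ha
    rw [Real.dist_eq] at ha ⊢
    have h1 := hb (u a)
    have h2 := hb ν
    rw [abs_le] at h1 h2
    rw [abs_lt] at ha ⊢
    constructor <;> linarith [h1.1, h1.2, h2.1, h2.2, ha.1, ha.2]
  have hS : S = ⊤ := by
    refine dense_boxes S hSc fun s => ?_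
    show Tendsto (fun a => ∫ y, ind K (pbox s) (isClopen_pbox s) y ∂(u a : Measure K)) l
      (𝓝 (∫ y, ind K (pbox s) (isClopen_pbox s) y ∂(ν : Measure K)))
    simp only [integral_ind]
    exact h s
  rw [ProbabilityMeasure.tendsto_iff_forall_integral_tendsto]
  intro f
  have : f.toContinuousMap ∈ S := by rw [hS]; exact Submodule.mem_top
  exact this

/-- Limits of regular probability measures along an ultrafilter. -/
theorem exists_limit {Z : Type*} [TopologicalSpace Z] [CompactSpace Z] [T2Space Z]
    [MeasurableSpace Z] [BorelSpace Z] {α : Type*} (𝒰 : Ultrafilter α)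
    (u : α → ProbabilityMeasure Z) :
    ∃ ρ : ProbabilityMeasure Z, (ρ : Measure Z).Regular ∧ Tendsto u 𝒰 (𝓝 ρ) := by
  have hint : ∀ (m : ProbabilityMeasure Z) (g : C(Z, ℝ)), Integrable g (m : Measure Z) :=
    fun m g => Integrable.of_bound g.continuous.aestronglyMeasurable ‖g‖
      (Eventually.of_forall fun y => g.norm_coe_le_norm y)
  have hbd : ∀ (m : ProbabilityMeasure Z) (g : C(Z, ℝ)), ∫ y, g y ∂(m : Measure Z) ∈
      Icc (-‖g‖) ‖g‖ := by
    intro m g
    have h5 := norm_integral_le_of_norm_le_const (μ := (m : Measure Z))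
      (Eventually.of_forall fun y => g.norm_coe_le_norm y : ∀ᵐ y ∂(m : Measure Z), ‖g y‖ ≤ ‖g‖)
    simp only [probReal_univ, mul_one, Real.norm_eq_abs] at h5
    exact abs_le.1 h5
  have hlim : ∀ g : C(Z, ℝ), ∃ v : ℝ,
      Tendsto (fun a => ∫ y, g y ∂(u a : Measure Z)) 𝒰 (𝓝 v) := by
    intro g
    have hc : IsCompact (Icc (-‖g‖) ‖g‖) := isCompact_Icc
    obtain ⟨v, _, hv⟩ := hc.ultrafilter_le_nhds
      (𝒰.map fun a => ∫ y, g y ∂(u a : Measure Z)) (by
        rw [le_principal_iff, Ultrafilter.mem_coe, Ultrafilter.mem_map]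
        exact Filter.Eventually.of_forall (fun a => hbd (u a) g))
    exact ⟨v, hv⟩
  choose Φ hΦ using hlim
  let Λ : C_c(Z, ℝ) →ₚ[ℝ] ℝ :=
  { toFun g := Φ g.toContinuousMap
    map_add' g g' := by
      refine tendsto_nhds_unique (hΦ _) ?_
      refine ((hΦ g.toContinuousMap).add (hΦ g'.toContinuousMap)).congr fun a => ?_
      rw [← integral_add (hint _ _) (hint _ _)]
      rfl
    map_smul' c g := by
      refine tendsto_nhds_unique (hΦ _) ?_
      refine ((hΦ g.toContinuousMap).const_mul c).congr fun a => ?_
      rw [← integral_const_mul]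
      rfl
    monotone' g g' hgg' := by
      refine le_of_tendsto_of_tendsto' (hΦ g.toContinuousMap) (hΦ g'.toContinuousMap) fun a => ?_
      exact integral_mono (hint _ _) (hint _ _) fun y => hgg' y }
  have hf : ∀ f : C(Z, ℝ), ∫ a, f a ∂(RealRMK.rieszMeasure Λ) = Φ f := by
    intro f
    let g' : C_c(Z, ℝ) :=
      { toFun := f
        hasCompactSupport' := HasCompactSupport.of_compactSpace _ }
    exact RealRMK.integral_rieszMeasure Λ g'
  have hprob : IsProbabilityMeasure (RealRMK.rieszMeasure Λ) := by
    have h1 := hf (ContinuousMap.const _ 1)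
    have h0 : Φ (ContinuousMap.const _ 1) = 1 := by
      refine tendsto_nhds_unique (hΦ _) ?_
      simp only [ContinuousMap.const_apply, integral_const, smul_eq_mul, mul_one, probReal_univ]
      exact tendsto_const_nhds
    rw [h0] at h1
    simp only [ContinuousMap.const_apply, integral_const, smul_eq_mul, mul_one] at h1
    constructor
    have h2 : (RealRMK.rieszMeasure Λ).real univ = 1 := h1
    rw [measureReal_def] at h2
    have h3 := congrArg ENNReal.ofReal h2
    rwa [ENNReal.ofReal_toReal (measure_ne_top _ _), ENNReal.ofReal_one] at h3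
  let ρ : ProbabilityMeasure Z := ⟨RealRMK.rieszMeasure Λ, hprob⟩
  have hρ : (ρ : Measure Z) = RealRMK.rieszMeasure Λ := rfl
  refine ⟨ρ, ?_, ?_⟩
  · rw [hρ]
    infer_instance
  rw [ProbabilityMeasure.tendsto_iff_forall_integral_tendsto]
  intro f
  have h1 := hΦ f.toContinuousMap
  have h2 := hf f.toContinuousMap
  rw [hρ]
  have h3 : ∫ y, f y ∂(RealRMK.rieszMeasure Λ) = Φ f.toContinuousMap := h2
  rw [h3]
  exact h1

end Weak

end Pool.Agent.Y443.MS
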