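import Pool.Agent.Y443.MSA

/-!
Measures with metrizable-like support (MP_5a7e2f_gt), part B: a class of compact spaces `K` for
which `P(K)` has countable tightness.
-/

open MeasureTheory Set Topology Filter
open scoped ENNReal NNReal

namespace Pool.Agent.Y443.MS

variable {I : Type} [LinearOrder I]

/-- The projection to the Cantor space. -/
def pr (y : ℕ ⊕ I → Bool) : ℕ → Bool := fun n => y (Sum.inl n)

omit [LinearOrder I] in
theorem continuous_pr : Continuous (pr : (ℕ ⊕ I → Bool) → (ℕ → Bool)) :=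
  continuous_pi fun _ => continuous_apply _

/-- The coordinates below `b`. -/
def lo (b : I) : Set (ℕ ⊕ I) := {j | ∀ i, j = Sum.inr i → i < b}

theorem lo_mono {b c : I} (h : b ≤ c) : lo b ⊆ lo c := fun _ hj i hi => (hj i hi).trans_le h

/-- The class of spaces: closed subspaces `K` of `2^(ℕ ⊕ I)` such that for every `b` the clopen
set `{y | y b = 1}` of `K` is, up to the exceptional set
`{y | y b = 1, y ∉ ⋃ l, B b l}`, a union of clopen sets `B b l` which depend on coordinates
below `b` and whose projections to the Cantor space form a point-finite family; and the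
exceptional sets are pairwise disjoint. -/
structure Thin (I : Type) [LinearOrder I] where
  K : Set (ℕ ⊕ I → Bool)
  closed : IsClosed K
  G : I → ℕ → Set (ℕ → Bool)
  G_meas : ∀ b l, MeasurableSet (G b l)
  G_fin : ∀ b x, {l | x ∈ G b l}.Finite
  B : I → ℕ → Set (ℕ ⊕ I → Bool)
  B_dep : ∀ b l, ∃ s : Finset (ℕ ⊕ I), (s : Set (ℕ ⊕ I)) ⊆ lo b ∧ Dep (s : Set (ℕ ⊕ I)) (B b l)
  B_sub : ∀ b l y, y ∈ B b l → pr y ∈ G b l
  B_true : ∀ b l, ∀ y ∈ K, y ∈ B b l → y (Sum.inr b) = true
  disj : ∀ b c, b < c → ∀ y ∈ K, y (Sum.inr b) = true → (∀ l, y ∉ B b l) →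
    y (Sum.inr c) = true → (∀ l, y ∉ B c l) → False

section Agree

variable {K : Set (ℕ ⊕ I → Bool)} [MeasurableSpace K] [BorelSpace K]

/-- Two measures agree on all clopen sets depending on finitely many coordinates in `L`. -/
def Agree (L : Set (ℕ ⊕ I)) (m m' : ProbabilityMeasure K) : Prop :=
  ∀ s : Finset (ℕ ⊕ I), (s : Set (ℕ ⊕ I)) ⊆ L → ∀ W, Dep (s : Set (ℕ ⊕ I)) W →
    (m : Measure K).real (Subtype.val ⁻¹' W) = (m' : Measure K).real (Subtype.val ⁻¹' W)

omit [LinearOrder I] in
theorem Agree.pr_eq {L : Set (ℕ ⊕ I)} {m m' : ProbabilityMeasure K} (h : Agree L m m')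
    (hL : range Sum.inl ⊆ L) (T : Set (ℕ → Bool)) (hT : MeasurableSet T) :
    (m : Measure K) (Subtype.val ⁻¹' (pr ⁻¹' T)) = (m' : Measure K) (Subtype.val ⁻¹' (pr ⁻¹' T))
    := by
  classical
  have hmeas : Measurable fun y : K => pr y.1 :=
    (continuous_pr.comp continuous_subtype_val).measurable
  have key : (m : Measure K).map (fun y => pr y.1) = (m' : Measure K).map (fun y => pr y.1) := by
    have : IsProbabilityMeasure ((m : Measure K).map (fun y => pr y.1)) :=
      Measure.isProbabilityMeasure_map hmeas.aemeasurable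
    have : IsProbabilityMeasure ((m' : Measure K).map (fun y => pr y.1)) :=
      Measure.isProbabilityMeasure_map hmeas.aemeasurable
    refine ext_of_generate_finite (measurableCylinders fun _ : ℕ => Bool)
      generateFrom_measurableCylinders.symm isPiSystem_measurableCylinders ?_ ?_
    · intro U hU
      obtain ⟨s, S, hS, rfl⟩ := (mem_measurableCylinders _).1 hU
      have hU' : MeasurableSet (cylinder (α := fun _ : ℕ => Bool) s S) := by
        rw [← generateFrom_measurableCylinders (α := fun _ : ℕ => Bool)]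
        exact MeasurableSpace.measurableSet_generateFrom hU
      rw [Measure.map_apply hmeas hU', Measure.map_apply hmeas hU']
      have hd : Dep ((s.map ⟨Sum.inl, Sum.inl_injective⟩ : Finset (ℕ ⊕ I)) : Set (ℕ ⊕ I))
          (pr ⁻¹' (cylinder (α := fun _ : ℕ => Bool) s S)) := by
        intro x y hxy hx
        simp only [mem_preimage, mem_cylinder] at hx ⊢
        convert hx using 1
        funext i
        exact (hxy (Sum.inl i.1) (by simp)).symm
      have h1 := h _ (by
        intro j hj
        simp only [Finset.coe_map, Function.Embedding.coeFn_mk, mem_image] at hj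
        obtain ⟨n, _, rfl⟩ := hj
        exact hL ⟨n, rfl⟩) _ hd
      have h2 := congrArg ENNReal.ofReal h1
      rw [measureReal_def, measureReal_def, ENNReal.ofReal_toReal (measure_ne_top _ _),
        ENNReal.ofReal_toReal (measure_ne_top _ _)] at h2
      exact h2
    · rw [measure_univ, measure_univ]
  have h1 : ((m : Measure K).map (fun y => pr y.1)) T =
      ((m' : Measure K).map (fun y => pr y.1)) T := by rw [key]
  rw [Measure.map_apply hmeas hT, Measure.map_apply hmeas hT] at h1
  exact h1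

omit [LinearOrder I] in
/-- The family of clopen sets depending on finitely many coordinates in a countable set. -/
theorem exists_enum {L : Set (ℕ ⊕ I)} (hL : L.Countable) :
    ∃ W : ℕ → Set (ℕ ⊕ I → Bool), (∀ k, ∃ s : Finset (ℕ ⊕ I), Dep (s : Set (ℕ ⊕ I)) (W k)) ∧
      ∀ s : Finset (ℕ ⊕ I), (s : Set (ℕ ⊕ I)) ⊆ L → ∀ V, Dep (s : Set (ℕ ⊕ I)) V →
        ∃ k, V = W k := by
  classical
  have : Countable L := hL.to_subtype
  let C : Set (Set (ℕ ⊕ I → Bool)) :=
    {V | ∃ s : Finset (ℕ ⊕ I), (s : Set (ℕ ⊕ I)) ⊆ L ∧ Dep (s : Set (ℕ ⊕ I)) V}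
  let f : (Σ s : Finset L, Set (s → Bool)) → Set (ℕ ⊕ I → Bool) := fun p =>
    {y | (fun i : p.1 => y i.1.1) ∈ p.2}
  have hC : C ⊆ range f := by
    rintro V ⟨s, hs, hV⟩
    let e : {x // x ∈ s} ↪ L := ⟨fun i => ⟨i.1, hs i.2⟩, fun i j hij =>
      Subtype.ext (congrArg (fun z : L => z.1) hij)⟩
    let s' : Finset L := s.attach.map e
    have hmem : ∀ i (hi : i ∈ s), (⟨i, hs hi⟩ : L) ∈ s' := by
      intro i hi
      exact Finset.mem_map.2 ⟨⟨i, hi⟩, Finset.mem_attach _ _, rfl⟩
    refine ⟨⟨s', (fun y : ℕ ⊕ I → Bool => fun i : s' => y i.1.1) '' V⟩, ?_⟩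
    ext y
    simp only [f, mem_ofPred_eq]
    constructor
    · rintro ⟨x, hx, hxy⟩
      refine hV x y (fun i hi => ?_) hx
      exact congrFun hxy ⟨⟨i, hs hi⟩, hmem i hi⟩
    · intro hy
      exact ⟨y, hy, rfl⟩
  have hCc : C.Countable := (countable_range f).mono hC
  have hne : C.Nonempty := ⟨univ, ∅, by simp, dep_univ _⟩
  obtain ⟨W, hW⟩ := hCc.exists_eq_range hne
  refine ⟨W, fun k => ?_, fun s hs V hV => ?_⟩
  · have : W k ∈ C := by rw [hW]; exact mem_range_self k
    obtain ⟨s, _, h⟩ := this
    exact ⟨s, h⟩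
  · have : V ∈ C := ⟨s, hs, hV⟩
    rw [hW] at this
    obtain ⟨k, hk⟩ := this
    exact ⟨k, hk.symm⟩

omit [LinearOrder I] in
theorem continuous_eval_clopen [CompactSpace K] {s : Finset (ℕ ⊕ I)} {W : Set (ℕ ⊕ I → Bool)}
    (hW : Dep (s : Set (ℕ ⊕ I)) W) :
    Continuous fun m : ProbabilityMeasure K => (m : Measure K).real (Subtype.val ⁻¹' W) := by
  have h := ProbabilityMeasure.continuous_integral_continuousMap (X := K)
    (ind K W (hW.isClopen s.finite_toSet))
  simp only [integral_ind] at h
  exact h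

omit [LinearOrder I] in
/-- Step 1: a limit of a countable subset agreeing with the given point on countably many
coordinates. -/
theorem exists_agree [CompactSpace K] {L : Set (ℕ ⊕ I)} (hL : L.Countable)
    (A : Set (ProbabilityMeasure K)) (x : ProbabilityMeasure K) (hx : x ∈ closure A) :
    ∃ B ⊆ A, B.Countable ∧ ∃ ρ : ProbabilityMeasure K, (ρ : Measure K).Regular ∧
      ρ ∈ closure B ∧ Agree L ρ x := by
  obtain ⟨W, hW1, hW2⟩ := exists_enum (I := I) hL
  choose s hs using hW1
  have key : ∀ k : ℕ, ∃ a ∈ A, ∀ j ∈ Finset.range (k + 1),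
      |(a : Measure K).real (Subtype.val ⁻¹' W j) - (x : Measure K).real (Subtype.val ⁻¹' W j)| <
        1 / ((k : ℝ) + 1) := by
    intro k
    have ho : IsOpen {a : ProbabilityMeasure K | ∀ j ∈ Finset.range (k + 1),
        |(a : Measure K).real (Subtype.val ⁻¹' W j) -
          (x : Measure K).real (Subtype.val ⁻¹' W j)| < 1 / ((k : ℝ) + 1)} := by
      have : {a : ProbabilityMeasure K | ∀ j ∈ Finset.range (k + 1),
          |(a : Measure K).real (Subtype.val ⁻¹' W j) -
            (x : Measure K).real (Subtype.val ⁻¹' W j)| < 1 / ((k : ℝ) + 1)} =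
          ⋂ j ∈ Finset.range (k + 1), {a : ProbabilityMeasure K |
          |(a : Measure K).real (Subtype.val ⁻¹' W j) -
            (x : Measure K).real (Subtype.val ⁻¹' W j)| < 1 / ((k : ℝ) + 1)} := by
        ext a; simp
      rw [this]
      refine isOpen_biInter_finset fun j _ => ?_
      exact isOpen_lt (((continuous_eval_clopen (hs j)).sub continuous_const).abs)
        continuous_const
    obtain ⟨a, ha1, ha2⟩ := mem_closure_iff.1 hx _ ho (by
      intro j _
      simp only [sub_self, abs_zero]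
      positivity)
    exact ⟨a, ha2, ha1⟩
  choose a ha1 ha2 using key
  obtain ⟨ρ, hρ1, hρ2⟩ := exists_limit (hyperfilter ℕ) a
  refine ⟨range a, range_subset_iff.2 ha1, countable_range a, ρ, hρ1,
    mem_closure_of_tendsto hρ2 (Eventually.of_forall fun k => mem_range_self k), ?_⟩
  intro t ht V hV
  obtain ⟨j, rfl⟩ := hW2 t ht V hV
  have h1 := ((continuous_eval_clopen (K := K) hV).tendsto ρ).comp hρ2
  refine tendsto_nhds_unique h1 ?_
  have h2 : Tendsto (fun k => (a k : Measure K).real (Subtype.val ⁻¹' W j)) atTop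
      (𝓝 ((x : Measure K).real (Subtype.val ⁻¹' W j))) := by
    rw [tendsto_iff_norm_sub_tendsto_zero]
    refine squeeze_zero' (Eventually.of_forall fun _ => norm_nonneg _) ?_
      tendsto_one_div_add_atTop_nhds_zero_nat
    filter_upwards [eventually_ge_atTop j] with k hk
    exact (ha2 k j (Finset.mem_range.2 (by omega))).le
  exact h2.mono_left Nat.hyperfilter_le_atTop

end Agree

section Tight

/-- The exceptional sets. -/
def Thin.C (T : Thin I) (b : I) : Set T.K :=
  {y | y.1 (Sum.inr b) = true ∧ ∀ l, y.1 ∉ T.B b l}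

theorem Thin.isClopen_B (T : Thin I) (b : I) (l : ℕ) : IsClopen (T.B b l) := by
  obtain ⟨s, _, hs⟩ := T.B_dep b l
  exact hs.isClopen s.finite_toSet

theorem Thin.isClosed_C (T : Thin I) (b : I) : IsClosed (T.C b) := by
  have h1 : T.C b = Subtype.val ⁻¹' {y | y (Sum.inr b) = true} ∩
      ⋂ l, Subtype.val ⁻¹' (T.B b l)ᶜ := by
    ext y
    simp [Thin.C]
  rw [h1]
  refine IsClosed.inter ?_ (isClosed_iInter fun l => ?_)
  · exact (isClosed_eq (continuous_apply _) continuous_const).preimage continuous_subtype_val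
  · exact (T.isClopen_B b l).compl.isClosed.preimage continuous_subtype_val

theorem Thin.disjoint_C (T : Thin I) : Pairwise (Function.onFun Disjoint T.C) := by
  intro b c hbc
  rw [Function.onFun, Set.disjoint_left]
  intro y hb hc
  rcases lt_or_gt_of_ne hbc with h | h
  · exact T.disj b c h y.1 y.2 hb.1 hb.2 hc.1 hc.2
  · exact T.disj c b h y.1 y.2 hc.1 hc.2 hb.1 hb.2

instance (T : Thin I) : CompactSpace T.K := isCompact_iff_compactSpace.1 T.closed.isCompact

variable (T : Thin I) [MeasurableSpace T.K] [BorelSpace T.K]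

theorem Thin.step (x : ProbabilityMeasure T.K) (ρ : ℕ → ProbabilityMeasure T.K) (c : I)
    (hx0 : (x : Measure T.K) (T.C c) = 0) (hρ0 : ∀ n, (ρ n : Measure T.K) (T.C c) = 0)
    (hpr : ∀ n S, MeasurableSet S → (ρ n : Measure T.K) (Subtype.val ⁻¹' (pr ⁻¹' S)) =
      (x : Measure T.K) (Subtype.val ⁻¹' (pr ⁻¹' S)))
    (ih : ∀ s : Finset (ℕ ⊕ I), (s : Set (ℕ ⊕ I)) ⊆ lo c → ∀ W, Dep (s : Set (ℕ ⊕ I)) W →
      Tendsto (fun n => (ρ n : Measure T.K).real (Subtype.val ⁻¹' W)) atTop
        (𝓝 ((x : Measure T.K).real (Subtype.val ⁻¹' W))))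
    (s : Finset (ℕ ⊕ I)) (hs : (s : Set (ℕ ⊕ I)) ⊆ lo c) (V : Set (ℕ ⊕ I → Bool))
    (hV : Dep (s : Set (ℕ ⊕ I)) V) :
    Tendsto (fun n => (ρ n : Measure T.K).real
        (Subtype.val ⁻¹' (V ∩ {y | y (Sum.inr c) = true}))) atTop
      (𝓝 ((x : Measure T.K).real (Subtype.val ⁻¹' (V ∩ {y | y (Sum.inr c) = true})))) := by
  classical
  choose t ht1 ht2 using T.B_dep c
  let D : ℕ → Set (ℕ ⊕ I → Bool) := fun m => ⋃ l ∈ (Iio m : Set ℕ), T.B c l
  let R : ℕ → Set (ℕ → Bool) := fun m => ⋃ l ∈ (Ici m : Set ℕ), T.G c l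
  have hRm : ∀ m, MeasurableSet (R m) := fun m =>
    MeasurableSet.biUnion (to_countable _) fun l _ => T.G_meas c l
  have hval : Measurable fun y : T.K => pr y.1 :=
    (continuous_pr.comp continuous_subtype_val).measurable
  -- the tail tends to zero
  have htail : Tendsto (fun m => (x : Measure T.K).real (Subtype.val ⁻¹' (pr ⁻¹' (R m)))) atTop
      (𝓝 0) := by
    have h1 : Tendsto (fun m => (x : Measure T.K) (Subtype.val ⁻¹' (pr ⁻¹' (R m)))) atTop
        (𝓝 ((x : Measure T.K) (⋂ m, Subtype.val ⁻¹' (pr ⁻¹' (R m))))) := by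
      refine tendsto_measure_iInter_atTop (fun m => (hval (hRm m)).nullMeasurableSet) ?_
        ⟨0, measure_ne_top _ _⟩
      intro m m' hm y hy
      simp only [R, mem_preimage, mem_iUnion, exists_prop] at hy ⊢
      obtain ⟨l, hl, hy⟩ := hy
      exact ⟨l, mem_Ici.2 (hm.trans (mem_Ici.1 hl)), hy⟩
    have h2 : (⋂ m, Subtype.val ⁻¹' (pr ⁻¹' (R m)) : Set T.K) = ∅ := by
      rw [eq_empty_iff_forall_notMem]
      intro y hy
      obtain ⟨m, hm⟩ := (T.G_fin c (pr y.1)).bddAbove
      have h3 := mem_iInter.1 hy (m + 1)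
      simp only [R, mem_preimage, mem_iUnion, exists_prop] at h3
      obtain ⟨l, hl, h3⟩ := h3
      have := hm h3
      have h4 := mem_Ici.1 hl
      omega
    rw [h2, measure_empty] at h1
    have h3 := (ENNReal.tendsto_toReal (ENNReal.zero_ne_top)).comp h1
    rw [ENNReal.toReal_zero] at h3
    exact h3
  -- the basic estimate
  have hest : ∀ r : ProbabilityMeasure T.K, (r : Measure T.K) (T.C c) = 0 →
      (∀ S, MeasurableSet S → (r : Measure T.K) (Subtype.val ⁻¹' (pr ⁻¹' S)) =
        (x : Measure T.K) (Subtype.val ⁻¹' (pr ⁻¹' S))) → ∀ m,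
      |(r : Measure T.K).real (Subtype.val ⁻¹' (V ∩ {y | y (Sum.inr c) = true})) -
        (r : Measure T.K).real (Subtype.val ⁻¹' (V ∩ D m))| ≤
          (x : Measure T.K).real (Subtype.val ⁻¹' (pr ⁻¹' (R m))) := by
    intro r hr0 hrp m
    have h1 : (r : Measure T.K).real (Subtype.val ⁻¹' (V ∩ D m)) ≤
        (r : Measure T.K).real (Subtype.val ⁻¹' (V ∩ {y | y (Sum.inr c) = true})) := by
      refine measureReal_mono ?_
      intro y hy
      refine ⟨hy.1, ?_⟩
      have h2 := hy.2
      simp only [D, mem_iUnion, exists_prop] at h2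
      obtain ⟨l, _, h2⟩ := h2
      exact T.B_true c l y.1 y.2 h2
    have h2 : (r : Measure T.K).real (Subtype.val ⁻¹' (V ∩ {y | y (Sum.inr c) = true})) ≤
        (r : Measure T.K).real (Subtype.val ⁻¹' (V ∩ D m)) +
          ((r : Measure T.K).real (T.C c) +
            (r : Measure T.K).real (Subtype.val ⁻¹' (pr ⁻¹' (R m)))) := by
      refine le_trans (measureReal_mono (s₂ := Subtype.val ⁻¹' (V ∩ D m) ∪ (T.C c ∪
        Subtype.val ⁻¹' (pr ⁻¹' (R m)))) ?_) ((measureReal_union_le _ _).trans
          (add_le_add le_rfl (measureReal_union_le _ _)))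
      intro y hy
      by_cases h3 : ∃ l, y.1 ∈ T.B c l
      · obtain ⟨l, hl⟩ := h3
        by_cases h4 : l < m
        · left
          refine ⟨hy.1, ?_⟩
          simp only [D, mem_iUnion, exists_prop]
          exact ⟨l, h4, hl⟩
        · right; right
          show pr y.1 ∈ R m
          simp only [R, mem_iUnion, exists_prop]
          exact ⟨l, mem_Ici.2 (not_lt.1 h4), T.B_sub c l y.1 hl⟩
      · push Not at h3
        right; left
        exact ⟨hy.2, h3⟩
    have h3 : (r : Measure T.K).real (T.C c) = 0 := by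
      rw [measureReal_def, hr0]; rfl
    have h4 : (r : Measure T.K).real (Subtype.val ⁻¹' (pr ⁻¹' (R m))) =
        (x : Measure T.K).real (Subtype.val ⁻¹' (pr ⁻¹' (R m))) := by
      rw [measureReal_def, measureReal_def, hrp _ (hRm m)]
    rw [abs_le]
    constructor
    · have h5 : 0 ≤ (x : Measure T.K).real (Subtype.val ⁻¹' (pr ⁻¹' (R m))) :=
        measureReal_nonneg
      linarith
    · linarith
  rw [Metric.tendsto_nhds]
  intro ε hε
  obtain ⟨m, hm⟩ := ((Metric.tendsto_nhds.1 htail) (ε / 3) (by linarith)).exists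
  rw [Real.dist_eq, sub_zero] at hm
  have hm' := (le_abs_self _).trans_lt hm
  have hD : Tendsto (fun n => (ρ n : Measure T.K).real (Subtype.val ⁻¹' (V ∩ D m))) atTop
      (𝓝 ((x : Measure T.K).real (Subtype.val ⁻¹' (V ∩ D m)))) := by
    refine ih (s ∪ (Finset.range m).biUnion t) ?_ _ ?_
    · intro j hj
      simp only [Finset.coe_union, Finset.coe_biUnion, mem_union, mem_iUnion, Finset.mem_coe,
        Finset.mem_range, exists_prop] at hj
      rcases hj with hj | ⟨l, _, hj⟩
      · exact hs hj
      · exact ht1 l hj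
    · refine (hV.mono (by simp)).inter (Dep.biUnion _ _ fun l hl => (ht2 l).mono ?_)
      intro j hj
      simp only [Finset.coe_union, Finset.coe_biUnion, mem_union, mem_iUnion, Finset.mem_coe,
        Finset.mem_range, exists_prop]
      exact Or.inr ⟨l, hl, hj⟩
  filter_upwards [(Metric.tendsto_nhds.1 hD) (ε / 3) (by linarith)] with n hn
  rw [Real.dist_eq] at hn ⊢
  have h1 := hest x hx0 (fun _ _ => rfl) m
  have h2 := hest (ρ n) (hρ0 n) (hpr n) m
  rw [abs_le] at h1 h2
  rw [abs_lt] at hn ⊢
  constructor <;> linarith [h1.1, h1.2, h2.1, h2.2, hn.1, hn.2]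

theorem Thin.tight [WellFoundedLT I] (hI : ∀ i : I, (Iic i).Countable)
    (hunc : ¬ (univ : Set I).Countable)
    (A : Set {μ : ProbabilityMeasure T.K // (μ : Measure T.K).Regular})
    (x : {μ : ProbabilityMeasure T.K // (μ : Measure T.K).Regular}) (hx : x ∈ closure A) :
    ∃ B ⊆ A, B.Countable ∧ x ∈ closure B := by
  classical
  have hupper : ∀ C : Set I, C.Countable → ∃ g, ∀ c ∈ C, c < g := by
    intro C hC
    by_contra h
    push Not at h
    refine hunc ((hC.biUnion fun c _ => hI c).mono fun i _ => ?_)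
    obtain ⟨c, hc, hlt⟩ := h i
    exact mem_biUnion hc (show i ∈ Iic c from hlt)
  have hlo : ∀ d : I, (lo d).Countable := by
    intro d
    have : lo d ⊆ range Sum.inl ∪ Sum.inr '' Iic d := by
      rintro (n | i) hj
      · exact Or.inl ⟨n, rfl⟩
      · exact Or.inr ⟨i, (hj i rfl).le, rfl⟩
    exact ((countable_range _).union ((hI d).image _)).mono this
  -- step 1
  have h1 : ∀ d : I, ∃ B ⊆ Subtype.val '' A, B.Countable ∧
      ∃ ρ : ProbabilityMeasure T.K, (ρ : Measure T.K).Regular ∧ ρ ∈ closure B ∧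
        Agree (lo d) ρ x.1 := fun d =>
    exists_agree (hlo d) _ _ (closure_subtype.1 hx)
  choose B hB1 hB2 ρ hρ1 hρ2 hρ3 using h1
  -- exceptional ordinals
  let Ex : ProbabilityMeasure T.K → Set I := fun m => {c | 0 < (m : Measure T.K) (T.C c)}
  have hEx : ∀ m, (Ex m).Countable := fun m =>
    Measure.countable_meas_pos_of_disjoint_iUnion (fun c => (T.isClosed_C c).measurableSet)
      T.disjoint_C
  have h2 : ∀ d : I, ∃ g, ∀ c ∈ Iic d ∪ (Ex (ρ d) ∪ Ex x.1), c < g := fun d =>
    hupper _ ((hI d).union ((hEx _).union (hEx _)))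
  choose g hg using h2
  obtain ⟨d0, _⟩ := hupper ∅ countable_empty
  let d : ℕ → I := fun n => g^[n] d0
  have hd : ∀ n, d (n + 1) = g (d n) := fun n => Function.iterate_succ_apply' g n d0
  have hdlt : ∀ n, d n < d (n + 1) := fun n => by
    rw [hd]; exact hg (d n) _ (Or.inl (mem_Iic.2 le_rfl))
  have hdmono : StrictMono d := strictMono_nat_of_lt_succ hdlt
  -- step 2
  have hpr : ∀ n S, MeasurableSet S →
      (ρ (d n) : Measure T.K) (Subtype.val ⁻¹' (pr ⁻¹' S)) =
      (x.1 : Measure T.K) (Subtype.val ⁻¹' (pr ⁻¹' S)) := fun n S hS =>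
    (hρ3 (d n)).pr_eq (by rintro _ ⟨k, rfl⟩ i hi; exact absurd hi (by simp)) S hS
  have key : ∀ b : I, ∀ s : Finset (ℕ ⊕ I), (s : Set (ℕ ⊕ I)) ⊆ lo b →
      ∀ W, Dep (s : Set (ℕ ⊕ I)) W →
      Tendsto (fun n => (ρ (d n) : Measure T.K).real (Subtype.val ⁻¹' W)) atTop
        (𝓝 ((x.1 : Measure T.K).real (Subtype.val ⁻¹' W))) := by
    intro b
    induction b using WellFoundedLT.induction with
    | _ b ihb =>
      intro s hs W hW
      by_cases hcase : ∃ n, (s : Set (ℕ ⊕ I)) ⊆ lo (d n)
      · obtain ⟨n, hn⟩ := hcase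
        refine tendsto_nhds_of_eventually_eq ?_
        filter_upwards [eventually_ge_atTop n] with k hk
        exact hρ3 (d k) s (hn.trans (lo_mono (hdmono.monotone hk))) W hW
      · -- the largest index
        have hne : s.toRight.Nonempty := by
          by_contra h
          rw [Finset.not_nonempty_iff_eq_empty] at h
          refine hcase ⟨0, ?_⟩
          intro j hj i hi
          subst hi
          have : i ∈ s.toRight := Finset.mem_toRight.2 hj
          rw [h] at this
          exact absurd this (Finset.notMem_empty i)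
        set c := s.toRight.max' hne with hc
        have hcs : Sum.inr c ∈ s := Finset.mem_toRight.1 (s.toRight.max'_mem hne)
        have hcb : c < b := hs hcs c rfl
        have hmax : ∀ i, Sum.inr i ∈ s → i ≤ c := fun i hi =>
          s.toRight.le_max' i (Finset.mem_toRight.2 hi)
        have hdc : ∀ n, d n ≤ c := by
          intro n
          by_contra h
          refine hcase ⟨n, ?_⟩
          intro j hj i hi
          subst hi
          exact (hmax i hj).trans_lt (not_le.1 h)
        have hx0 : (x.1 : Measure T.K) (T.C c) = 0 := by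
          by_contra h
          have h3 := hg (d 0) c (Or.inr (Or.inr (pos_iff_ne_zero.2 h)))
          rw [← hd] at h3
          exact absurd (hdc 1) (not_le.2 h3)
        have hρ0 : ∀ n, (ρ (d n) : Measure T.K) (T.C c) = 0 := by
          intro n
          by_contra h
          have h3 := hg (d n) c (Or.inr (Or.inl (pos_iff_ne_zero.2 h)))
          rw [← hd] at h3
          exact absurd (hdc (n + 1)) (not_le.2 h3)
        have ihc := ihb c hcb
        have hstep := T.step x.1 (fun n => ρ (d n)) c hx0 hρ0 hpr ihc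
        -- sections
        let s' := s.erase (Sum.inr c)
        have hs' : (s' : Set (ℕ ⊕ I)) ⊆ lo c := by
          intro j hj i hi
          subst hi
          have hj' : Sum.inr i ∈ s' := hj
          rw [Finset.mem_erase] at hj'
          refine lt_of_le_of_ne (hmax i hj'.2) fun h => hj'.1 (by rw [h])
        have hsec : ∀ v : Bool, Dep (s' : Set (ℕ ⊕ I))
            {y | Function.update y (Sum.inr c) v ∈ W} := fun v => by
          have := hW.section' (Sum.inr c) v
          rwa [← Finset.coe_erase] at this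
        set W1 : Set (ℕ ⊕ I → Bool) := {y | Function.update y (Sum.inr c) true ∈ W} with hW1
        set W0 : Set (ℕ ⊕ I → Bool) := {y | Function.update y (Sum.inr c) false ∈ W} with hW0
        have hmem1 : ∀ y : ℕ ⊕ I → Bool, y (Sum.inr c) = true → (y ∈ W ↔ y ∈ W1) := by
          intro y hy
          rw [hW1, mem_ofPred_eq, ← hy, Function.update_eq_self]
        have hmem0 : ∀ y : ℕ ⊕ I → Bool, y (Sum.inr c) = false → (y ∈ W ↔ y ∈ W0) := by
          intro y hy
          rw [hW0, mem_ofPred_eq, ← hy, Function.update_eq_self]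
        have hdecomp : ∀ r : ProbabilityMeasure T.K,
            (r : Measure T.K).real (Subtype.val ⁻¹' W) =
            (r : Measure T.K).real (Subtype.val ⁻¹' (W1 ∩ {y | y (Sum.inr c) = true})) +
            ((r : Measure T.K).real (Subtype.val ⁻¹' W0) -
              (r : Measure T.K).real (Subtype.val ⁻¹' (W0 ∩ {y | y (Sum.inr c) = true}))) := by
          intro r
          have hcl : IsClopen {y : ℕ ⊕ I → Bool | y (Sum.inr c) = true} :=
            (dep_coord (Sum.inr c)).isClopen (finite_singleton _)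
          have hAm : MeasurableSet (Subtype.val ⁻¹' {y | y (Sum.inr c) = true} : Set T.K) :=
            (hcl.preimage continuous_subtype_val).isOpen.measurableSet
          have e1 := measureReal_inter_add_sdiff (μ := (r : Measure T.K))
            (s := Subtype.val ⁻¹' W) hAm
          have e2 := measureReal_inter_add_sdiff (μ := (r : Measure T.K))
            (s := Subtype.val ⁻¹' W0) hAm
          have e3 : (Subtype.val ⁻¹' W ∩ Subtype.val ⁻¹' {y | y (Sum.inr c) = true} : Set T.K) =
              Subtype.val ⁻¹' (W1 ∩ {y | y (Sum.inr c) = true}) := by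
            ext y
            simp only [mem_inter_iff, mem_preimage]
            constructor
            · rintro ⟨ha, hb⟩
              exact ⟨(hmem1 _ hb).1 ha, hb⟩
            · rintro ⟨ha, hb⟩
              exact ⟨(hmem1 _ hb).2 ha, hb⟩
          have e4 : (Subtype.val ⁻¹' W \ Subtype.val ⁻¹' {y | y (Sum.inr c) = true} : Set T.K) =
              (Subtype.val ⁻¹' W0 \ Subtype.val ⁻¹' {y | y (Sum.inr c) = true} : Set T.K) := by
            ext y
            simp only [mem_diff, mem_preimage, mem_ofPred_eq, Bool.not_eq_true]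
            constructor
            · rintro ⟨ha, hb⟩
              exact ⟨(hmem0 _ hb).1 ha, hb⟩
            · rintro ⟨ha, hb⟩
              exact ⟨(hmem0 _ hb).2 ha, hb⟩
          rw [e3, e4] at e1
          rw [← preimage_inter] at e2
          linarith
        rw [hdecomp]
        simp only [hdecomp]
        exact (hstep s' hs' W1 (hsec true)).add
          ((ihc s' hs' W0 (hsec false)).sub (hstep s' hs' W0 (hsec false)))
  -- conclusion
  have hlim : Tendsto (fun n => ρ (d n)) atTop (𝓝 x.1) := by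
    refine tendsto_of_boxes _ _ fun s => ?_
    obtain ⟨b, hb⟩ := hupper (s.toRight : Set I) (Finset.countable_toSet _)
    refine key b s ?_ _ (dep_pbox s)
    intro j hj i hi
    subst hi
    exact hb i (Finset.mem_coe.2 (Finset.mem_toRight.2 hj))
  let B' : Set {μ : ProbabilityMeasure T.K // (μ : Measure T.K).Regular} :=
    {a | a ∈ A ∧ ∃ n, a.1 ∈ B (d n)}
  have hB' : Subtype.val '' B' = ⋃ n, B (d n) := by
    ext a
    simp only [B', mem_image, mem_ofPred_eq, mem_iUnion]
    constructor
    · rintro ⟨a', ⟨_, n, hn⟩, rfl⟩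
      exact ⟨n, hn⟩
    · rintro ⟨n, hn⟩
      obtain ⟨a', ha', rfl⟩ := hB1 (d n) hn
      exact ⟨a', ⟨ha', n, hn⟩, rfl⟩
  refine ⟨B', fun a ha => ha.1, ?_, ?_⟩
  · have : (Subtype.val '' B').Countable := by
      rw [hB']
      exact countable_iUnion fun n => hB2 (d n)
    exact countable_of_injective_of_countable_image Subtype.val_injective.injOn this
  · rw [closure_subtype, hB']
    refine isClosed_closure.mem_of_tendsto hlim (Eventually.of_forall fun n => ?_)
    exact closure_mono (subset_iUnion (fun n => B (d n)) n) (hρ2 (d n))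

end Tight

end Pool.Agent.Y443.MS
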