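import Pool.Agent.Y443.MSB

/-!
Measures with metrizable-like support (MP_5a7e2f_gt), part C: one step of the recursion.
-/

open MeasureTheory Set Topology Filter
open scoped ENNReal NNReal

namespace Pool.Agent.Y443.MS

section Small

variable {X : Type*} [TopologicalSpace X] [CompactSpace X] [T2Space X] [MeasurableSpace X]
  [BorelSpace X] (lam : Measure X) [IsFiniteMeasure lam] [lam.Regular]

omit [IsFiniteMeasure lam] in
theorem exists_small (hna : ∀ x, lam {x} = 0) (F : Set X) (hF : MeasurableSet F) (hpos : 0 < lam F) (ε : ℝ≥0∞)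
    (hε : 0 < ε) : ∃ Z ⊆ F, MeasurableSet Z ∧ 0 < lam Z ∧ lam Z < ε := by
  have h1 : ∀ x : X, ∃ U, IsOpen U ∧ x ∈ U ∧ lam U < ε := by
    intro x
    have h2 : lam {x} < ε := by rw [hna]; exact hε
    obtain ⟨U, hU1, hU2, hU3⟩ := Set.exists_isOpen_lt_of_lt {x} ε h2
    exact ⟨U, hU2, hU1 rfl, hU3⟩
  choose U hU1 hU2 hU3 using h1
  obtain ⟨t, ht⟩ := isCompact_univ.elim_finite_subcover U hU1 fun x _ =>
    mem_iUnion.2 ⟨x, hU2 x⟩
  by_contra hcon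
  push Not at hcon
  have h3 : ∀ x ∈ t, lam (F ∩ U x) = 0 := by
    intro x _
    by_contra h
    have h4 := hcon (F ∩ U x) inter_subset_left (hF.inter (hU1 x).measurableSet)
      (pos_iff_ne_zero.2 h)
    exact absurd ((measure_mono inter_subset_right).trans_lt (hU3 x)) (not_lt.2 h4)
  have h5 : lam F = 0 := by
    refine measure_mono_null (t := ⋃ x ∈ t, F ∩ U x) ?_
      ((measure_biUnion_null_iff t.countable_toSet).2 h3)
    intro y hy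
    have h6 := ht (mem_univ y)
    simp only [mem_iUnion, exists_prop] at h6 ⊢
    obtain ⟨x, hx, hyx⟩ := h6
    exact ⟨x, hx, hy, hyx⟩
  exact hpos.ne' h5

omit [IsFiniteMeasure lam] in
theorem exists_Z (hna : ∀ x, lam {x} = 0) {ι : Type*} [Countable ι] (F : ι → Set X) (hF : ∀ i, MeasurableSet (F i))
    (ε : ℝ≥0∞) (hε : ε ≠ 0) :
    ∃ Z, MeasurableSet Z ∧ lam Z < ε ∧ ∀ i, 0 < lam (F i) → 0 < lam (F i ∩ Z) := by
  obtain ⟨ε', hε'1, hε'2⟩ := ENNReal.exists_pos_sum_of_countable' hε ι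
  have h1 : ∀ i, ∃ Z, MeasurableSet Z ∧ lam Z ≤ ε' i ∧
      (0 < lam (F i) → 0 < lam (F i ∩ Z)) := by
    intro i
    by_cases h : 0 < lam (F i)
    · obtain ⟨Z, hZ1, hZ2, hZ3, hZ4⟩ := exists_small lam hna (F i) (hF i) h (ε' i) (hε'1 i)
      exact ⟨Z, hZ2, hZ4.le, fun _ => by rwa [inter_eq_right.2 hZ1]⟩
    · exact ⟨∅, MeasurableSet.empty, by simp, fun h' => absurd h' h⟩
  choose Z hZ1 hZ2 hZ3 using h1
  refine ⟨⋃ i, Z i, MeasurableSet.iUnion hZ1, ?_, fun i hi => ?_⟩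
  · exact (measure_iUnion_le _).trans_lt ((ENNReal.tsum_le_tsum hZ2).trans_lt hε'2)
  · exact (hZ3 i hi).trans_le (measure_mono (inter_subset_inter_right _ (subset_iUnion Z i)))

end Small

/-- The list of properties of one step of the construction: `V` are the sets constructed so far
(with indices in `T`), `E` a list of sets to be taken care of. -/
structure StepData {I : Type*} (lam : Measure (ℕ → Bool)) (T : Set I)
    (V : I → Set (ℕ → Bool)) (E : ℕ → Set (ℕ → Bool)) (Δ : Set (ℕ → Bool))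
    (G : ℕ → Set (ℕ → Bool)) (O : I → Set (ℕ → Bool)) (s : ℕ → Finset I) (v : ℕ → I → Bool)
    (V' : Set (ℕ → Bool)) : Prop where
  closed : IsClosed Δ
  big : 1 / 2 < lam Δ
  clopenG : ∀ l, IsClopen (G l)
  disj : ∀ l, Disjoint (G l) Δ
  clopenO : ∀ ξ ∈ T, IsClopen (O ξ)
  eqO : ∀ ξ ∈ T, ∀ x ∈ Δ, (x ∈ V ξ ↔ x ∈ O ξ)
  subs : ∀ l, ∀ ξ ∈ s l, ξ ∈ T
  event : ∀ ξ ∈ T, ∃ m, ∀ l, m ≤ l → ξ ∈ s l
  hom : ∀ l, ∀ ξ ∈ s l, (G l ⊆ O ξ ∧ v l ξ = true) ∨ (Disjoint (G l) (O ξ) ∧ v l ξ = false)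
  conv : ∀ O', IsClopen O' → Δ ⊆ O' → ∃ m, ∀ l, m ≤ l → G l ⊆ O'
  defV : V' = ⋃ l, G l ∩ {x | ∀ ξ ∈ s l, (x ∈ V ξ ↔ v l ξ = true)}
  hits : ∀ n, 0 < lam (E n ∩ Δ) → 0 < lam (E n ∩ V')

theorem exists_step {I : Type*} (lam : Measure (ℕ → Bool)) [IsProbabilityMeasure lam]
    (hna : ∀ x, lam {x} = 0) (T : Set I) (hT : T.Countable) (V : I → Set (ℕ → Bool))
    (hV : ∀ ξ ∈ T, MeasurableSet (V ξ)) (E : ℕ → Set (ℕ → Bool)) (hE : ∀ n, MeasurableSet (E n)) :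
    ∃ Δ G O s v V', StepData lam T V E Δ G O s v V' := by
  classical
  have : Countable T := hT.to_subtype
  -- enumeration of the clopen sets
  have hcc : Countable (TopologicalSpace.Clopens (ℕ → Bool)) :=
    TopologicalSpace.Clopens.countable_iff_secondCountable.2 inferInstance
  obtain ⟨Q', hQ'⟩ := exists_surjective_nat (TopologicalSpace.Clopens (ℕ → Bool))
  let Q : ℕ → Set (ℕ → Bool) := fun n => Q' n
  have hQc : ∀ n, IsClopen (Q n) := fun n => (Q' n).isClopen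
  have hQs : ∀ U : Set (ℕ → Bool), IsClopen U → ∃ n, Q n = U := by
    intro U hU
    obtain ⟨n, hn⟩ := hQ' ⟨U, hU⟩
    exact ⟨n, by simp only [Q, hn]; rfl⟩
  -- the finite sets
  obtain ⟨e, he⟩ := exists_injective_nat T
  have hfin : ∀ l : ℕ, {ξ : I | ∃ h : ξ ∈ T, e ⟨ξ, h⟩ ≤ l}.Finite := by
    intro l
    have h1 : ((fun t : T => e t) ⁻¹' (Iic l)).Finite :=
      (finite_Iic l).preimage he.injOn
    refine (h1.image Subtype.val).subset ?_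
    rintro ξ ⟨h, hl⟩
    exact ⟨⟨ξ, h⟩, hl, rfl⟩
  let s : ℕ → Finset I := fun l => (hfin l).toFinset
  have hs : ∀ l ξ, ξ ∈ s l ↔ ∃ h : ξ ∈ T, e ⟨ξ, h⟩ ≤ l := fun l ξ => by
    simp only [s, Finite.mem_toFinset, mem_ofPred_eq]
  -- the countable family of sets which must not be covered by `Δ`
  let P : (I → Set (ℕ → Bool)) → ℕ → Finset T → Set (ℕ → Bool) := fun V l p =>
    {x | ∀ ξ : T, ξ.1 ∈ s l → (x ∈ V ξ.1 ↔ ξ ∈ p)}
  have hPm : ∀ l p, MeasurableSet (P V l p) := by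
    intro l p
    have : P V l p = ⋂ ξ : T, {x | ξ.1 ∈ s l → (x ∈ V ξ.1 ↔ ξ ∈ p)} := by
      ext x; simp [P]
    rw [this]
    refine MeasurableSet.iInter fun ξ => ?_
    by_cases h1 : ξ.1 ∈ s l <;> by_cases h2 : ξ ∈ p
    · have : {x : ℕ → Bool | ξ.1 ∈ s l → (x ∈ V ξ.1 ↔ ξ ∈ p)} = V ξ.1 := by
        ext x; simp [h1, h2]
      rw [this]; exact hV _ ξ.2
    · have : {x : ℕ → Bool | ξ.1 ∈ s l → (x ∈ V ξ.1 ↔ ξ ∈ p)} = (V ξ.1)ᶜ := by
        ext x; simp [h1, h2]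
      rw [this]; exact (hV _ ξ.2).compl
    · have : {x : ℕ → Bool | ξ.1 ∈ s l → (x ∈ V ξ.1 ↔ ξ ∈ p)} = univ := by
        ext x; simp [h1]
      rw [this]; exact MeasurableSet.univ
    · have : {x : ℕ → Bool | ξ.1 ∈ s l → (x ∈ V ξ.1 ↔ ξ ∈ p)} = univ := by
        ext x; simp [h1]
      rw [this]; exact MeasurableSet.univ
  obtain ⟨Z, hZ1, hZ2, hZ3⟩ := exists_Z lam hna
    (fun i : ℕ × ℕ × ℕ × Finset T => E i.1 ∩ Q i.2.1 ∩ P V i.2.2.1 i.2.2.2)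
    (fun i => ((hE _).inter (hQc _).isOpen.measurableSet).inter (hPm _ _)) (1 / 4)
    (by norm_num)
  -- Lusin
  obtain ⟨ε', hε'1, hε'2⟩ := ENNReal.exists_pos_sum_of_countable'
    (show (1 / 8 : ℝ≥0∞) ≠ 0 by norm_num) T
  have hlus : ∀ ξ : T, ∃ F1 F2 : Set (ℕ → Bool), IsCompact F1 ∧ IsCompact F2 ∧ F1 ⊆ V ξ.1 ∧
      F2 ⊆ (V ξ.1)ᶜ ∧ lam (V ξ.1 \ F1) < ε' ξ ∧ lam ((V ξ.1)ᶜ \ F2) < ε' ξ := by
    intro ξ
    obtain ⟨F1, a1, a2, a3⟩ := (hV _ ξ.2).exists_isCompact_sdiff_lt (measure_ne_top lam _)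
      (hε'1 ξ).ne'
    obtain ⟨F2, b1, b2, b3⟩ := (hV _ ξ.2).compl.exists_isCompact_sdiff_lt (measure_ne_top lam _)
      (hε'1 ξ).ne'
    exact ⟨F1, F2, a2, b2, a1, b1, a3, b3⟩
  choose F1 F2 hF1c hF2c hF1 hF2 hF1m hF2m using hlus
  let N : Set (ℕ → Bool) := Z ∪ ((⋃ ξ : T, V ξ.1 \ F1 ξ) ∪ ⋃ ξ : T, (V ξ.1)ᶜ \ F2 ξ)
  have hNm : MeasurableSet N := by
    refine hZ1.union ((MeasurableSet.iUnion fun ξ => ?_).union (MeasurableSet.iUnion fun ξ => ?_))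
    · exact MeasurableSet.diff (hV _ ξ.2) (hF1c ξ).isClosed.measurableSet
    · exact MeasurableSet.diff (hV _ ξ.2).compl (hF2c ξ).isClosed.measurableSet
  have hNlt : lam N < 1 / 2 := by
    have h1 : lam (⋃ ξ : T, V ξ.1 \ F1 ξ) ≤ 1 / 8 :=
      (measure_iUnion_le _).trans ((ENNReal.tsum_le_tsum fun ξ => (hF1m ξ).le).trans hε'2.le)
    have h2 : lam (⋃ ξ : T, (V ξ.1)ᶜ \ F2 ξ) ≤ 1 / 8 :=
      (measure_iUnion_le _).trans ((ENNReal.tsum_le_tsum fun ξ => (hF2m ξ).le).trans hε'2.le)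
    calc lam N ≤ lam Z + (lam (⋃ ξ : T, V ξ.1 \ F1 ξ) + lam (⋃ ξ : T, (V ξ.1)ᶜ \ F2 ξ)) :=
          (measure_union_le _ _).trans (add_le_add le_rfl (measure_union_le _ _))
      _ ≤ lam Z + (1 / 8 + 1 / 8) := add_le_add le_rfl (add_le_add h1 h2)
      _ < 1 / 4 + (1 / 8 + 1 / 8) := by
          refine ENNReal.add_lt_add_right ?_ hZ2
          norm_num
      _ = 1 / 2 := by
          have h8 : (1 / 8 : ℝ≥0∞) + 1 / 8 = 1 / 4 := by
            rw [ENNReal.div_add_div_same]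
            rw [show (1 + 1 : ℝ≥0∞) = 2 by norm_num, show (8 : ℝ≥0∞) = 2 * 4 by norm_num]
            rw [ENNReal.div_eq_div_iff] <;> norm_num
          rw [h8, ENNReal.div_add_div_same, show (1 + 1 : ℝ≥0∞) = 2 by norm_num,
            show (4 : ℝ≥0∞) = 2 * 2 by norm_num]
          rw [ENNReal.div_eq_div_iff] <;> norm_num
  -- the set `Δ`
  have hNc : 1 / 2 < lam Nᶜ := by
    have h1 := prob_compl_eq_one_sub (μ := lam) hNm
    rw [h1]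
    refine lt_tsub_iff_left.2 ?_
    calc lam N + 1 / 2 < 1 / 2 + 1 / 2 := ENNReal.add_lt_add_right (by norm_num) hNlt
      _ = 1 := ENNReal.add_halves 1
  obtain ⟨Δ, hΔN, hΔc, hΔ⟩ := hNm.compl.exists_lt_isCompact_of_ne_top (measure_ne_top lam _) hNc
  have hΔZ : ∀ x ∈ Δ, x ∉ Z := fun x hx hxZ => hΔN hx (Or.inl hxZ)
  have hΔF : ∀ ξ : T, ∀ x ∈ Δ, x ∈ F1 ξ ∨ x ∈ F2 ξ := by
    intro ξ x hx
    by_contra h
    push Not at h
    by_cases hxV : x ∈ V ξ.1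
    · exact hΔN hx (Or.inr (Or.inl (mem_iUnion.2 ⟨ξ, hxV, h.1⟩)))
    · exact hΔN hx (Or.inr (Or.inr (mem_iUnion.2 ⟨ξ, hxV, h.2⟩)))
  have hO : ∀ ξ : T, ∃ O : Set (ℕ → Bool), IsClopen O ∧ F1 ξ ⊆ O ∧ O ⊆ (F2 ξ)ᶜ := fun ξ =>
    exists_clopen_of_closed_subset_open (hF1c ξ).isClosed (hF2c ξ).isClosed.isOpen_compl
      fun x hx1 hx2 => hF2 ξ hx2 (hF1 ξ hx1)
  choose O0 hO0c hO01 hO02 using hO
  let O : I → Set (ℕ → Bool) := fun ξ => if h : ξ ∈ T then O0 ⟨ξ, h⟩ else ∅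
  have hOT : ∀ ξ : T, O ξ.1 = O0 ξ := fun ξ => by simp [O]
  have heqO : ∀ ξ : T, ∀ x ∈ Δ, (x ∈ V ξ.1 ↔ x ∈ O ξ.1) := by
    intro ξ x hx
    rw [hOT]
    constructor
    · intro hxV
      rcases hΔF ξ x hx with h | h
      · exact hO01 ξ h
      · exact absurd hxV (hF2 ξ h)
    · intro hxO
      rcases hΔF ξ x hx with h | h
      · exact hF1 ξ h
      · exact absurd h (hO02 ξ hxO)
  -- neighbourhoods of `Δ`
  let Nb : ℕ → Set (ℕ → Bool) := fun l => {x | ∀ j, j ≤ l → Δ ⊆ Q j → x ∈ Q j}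
  have hNbc : ∀ l, IsClopen (Nb l) := by
    intro l
    have : Nb l = ⋂ j ∈ (Finset.range (l + 1)).filter (fun j => Δ ⊆ Q j), Q j := by
      ext x
      simp only [Nb, mem_ofPred_eq, Finset.mem_filter, Finset.mem_range, mem_iInter,
        Order.lt_add_one_iff]
      exact ⟨fun h j hj => h j hj.1 hj.2, fun h j h1 h2 => h j ⟨h1, h2⟩⟩
    rw [this]
    exact isClopen_biInter_finset fun j _ => hQc j
  have hNbΔ : ∀ l, Δ ⊆ Nb l := fun l x hx j _ hj => hj hx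
  -- the sets `G`
  have hPO : ∀ l p, IsClopen (P O l p) := by
    intro l p
    have : P O l p = ⋂ ξ ∈ s l, {x | ∀ h : ξ ∈ T, (x ∈ O ξ ↔ (⟨ξ, h⟩ : T) ∈ p)} := by
      ext x
      simp only [P, mem_ofPred_eq, mem_iInter]
      exact ⟨fun h ξ hξ hT => h ⟨ξ, hT⟩ hξ, fun h ξ hξ => h ξ.1 hξ ξ.2⟩
    rw [this]
    refine isClopen_biInter_finset fun ξ _ => ?_
    by_cases h1 : ξ ∈ T
    · have hc : IsClopen (O ξ) := by rw [hOT ⟨ξ, h1⟩]; exact hO0c _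
      by_cases h2 : (⟨ξ, h1⟩ : T) ∈ p
      · have : {x : ℕ → Bool | ∀ h : ξ ∈ T, (x ∈ O ξ ↔ (⟨ξ, h⟩ : T) ∈ p)} = O ξ := by
          ext x; simp [h1, h2]
        rw [this]; exact hc
      · have : {x : ℕ → Bool | ∀ h : ξ ∈ T, (x ∈ O ξ ↔ (⟨ξ, h⟩ : T) ∈ p)} = (O ξ)ᶜ := by
          ext x; simp [h1, h2]
        rw [this]; exact hc.compl
    · have : {x : ℕ → Bool | ∀ h : ξ ∈ T, (x ∈ O ξ ↔ (⟨ξ, h⟩ : T) ∈ p)} = univ := by
        ext x; simp [h1]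
      rw [this]; exact isClopen_univ
  have key : ∀ n, ∃ (G : Set (ℕ → Bool)) (v : I → Bool), IsClopen G ∧ Disjoint G Δ ∧
      G ⊆ Nb n ∧ (∀ ξ ∈ s n, (G ⊆ O ξ ∧ v ξ = true) ∨ (Disjoint G (O ξ) ∧ v ξ = false)) ∧
      (0 < lam (E n ∩ Δ) → 0 < lam (E n ∩ (G ∩ {x | ∀ ξ ∈ s n, (x ∈ V ξ ↔ v ξ = true)}))) := by
    intro n
    by_cases hpos : 0 < lam (E n ∩ Δ)
    swap
    · exact ⟨∅, fun _ => false, isClopen_empty, disjoint_bot_left, empty_subset _,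
        fun ξ _ => Or.inr ⟨disjoint_bot_left, rfl⟩, fun h => absurd h hpos⟩
    -- a homogeneous piece
    have h1 : ∃ p : Finset T, 0 < lam (E n ∩ Δ ∩ P O n p) := by
      by_contra h
      push Not at h
      have h2 : lam (⋃ p : Finset T, E n ∩ Δ ∩ P O n p) = 0 :=
        measure_iUnion_null fun p => nonpos_iff_eq_zero.1 (h p)
      refine hpos.ne' (measure_mono_null ?_ h2)
      intro x hx
      have hf : {ξ : T | ξ.1 ∈ s n}.Finite :=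
        (s n).finite_toSet.preimage Subtype.val_injective.injOn
      refine mem_iUnion.2 ⟨hf.toFinset.filter fun ξ => x ∈ O ξ.1, hx, ?_⟩
      intro ξ hξ
      simp only [Finset.mem_filter, Finite.mem_toFinset, mem_ofPred_eq]
      exact ⟨fun h => ⟨hξ, h⟩, fun h => h.2⟩
    obtain ⟨p, hp⟩ := h1
    obtain ⟨q, hq⟩ := hQs (Nb n ∩ P O n p) ((hNbc n).inter (hPO n p))
    have h2 : 0 < lam (E n ∩ Q q ∩ P V n p) := by
      refine hp.trans_le (measure_mono ?_)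
      rintro x ⟨⟨hx1, hx2⟩, hx3⟩
      refine ⟨⟨hx1, ?_⟩, ?_⟩
      · rw [hq]; exact ⟨hNbΔ n hx2, hx3⟩
      · intro ξ hξ
        rw [heqO ξ x hx2]
        exact hx3 ξ hξ
    have h3 := hZ3 (n, q, n, p) h2
    simp only at h3
    -- a clopen set avoiding `Δ`
    have h4 : ∃ r, Q r ⊆ Q q \ Δ ∧ 0 < lam (E n ∩ Q q ∩ P V n p ∩ Q r) := by
      by_contra h
      push Not at h
      have h5 : lam (⋃ r : {r // Q r ⊆ Q q \ Δ}, E n ∩ Q q ∩ P V n p ∩ Q r.1) = 0 :=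
        measure_iUnion_null fun r => nonpos_iff_eq_zero.1 (h r.1 r.2)
      refine h3.ne' (measure_mono_null ?_ h5)
      rintro x ⟨hx1, hxZ⟩
      have hxΔ : x ∉ Δ := fun h => hΔZ x h hxZ
      obtain ⟨W, hW1, hW2, hW3⟩ := compact_exists_isClopen_in_isOpen
        ((hQc q).isOpen.sdiff hΔc.isClosed) (show x ∈ Q q \ Δ from ⟨hx1.1.2, hxΔ⟩)
      obtain ⟨r, hr⟩ := hQs W hW1
      refine mem_iUnion.2 ⟨⟨r, by rw [hr]; exact hW3⟩, hx1, ?_⟩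
      rw [hr]; exact hW2
    obtain ⟨r, hr1, hr2⟩ := h4
    have hrP : Q r ⊆ P O n p := fun x hx => by
      have := (hr1 hx).1
      rw [hq] at this
      exact this.2
    refine ⟨Q r, fun ξ => decide (∃ h : ξ ∈ T, (⟨ξ, h⟩ : T) ∈ p), hQc r,
      Set.disjoint_left.2 fun x hx => (hr1 hx).2, fun x hx => ?_, fun ξ hξ => ?_, fun _ => ?_⟩
    · have := (hr1 hx).1
      rw [hq] at this
      exact this.1
    · obtain ⟨hT, -⟩ := (hs n ξ).1 hξ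
      by_cases h : (⟨ξ, hT⟩ : T) ∈ p
      · left
        refine ⟨fun x hx => (hrP hx ⟨ξ, hT⟩ hξ).2 h, ?_⟩
        simp only [decide_eq_true_eq]
        exact ⟨hT, h⟩
      · right
        refine ⟨Set.disjoint_left.2 fun x hx hxO => h ((hrP hx ⟨ξ, hT⟩ hξ).1 hxO), ?_⟩
        simp only [decide_eq_false_iff_not, not_exists]
        exact fun _ => h
    · refine hr2.trans_le (measure_mono ?_)
      rintro x ⟨⟨⟨hx1, _⟩, hx3⟩, hx4⟩
      refine ⟨hx1, hx4, ?_⟩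
      intro ξ hξ
      obtain ⟨hT, -⟩ := (hs n ξ).1 hξ
      rw [hx3 ⟨ξ, hT⟩ hξ]
      simp only [decide_eq_true_eq]
      exact ⟨fun h => ⟨hT, h⟩, fun ⟨_, h⟩ => h⟩
  choose G v hG1 hG2 hG3 hG4 hG5 using key
  refine ⟨Δ, G, O, s, v, ⋃ l, G l ∩ {x | ∀ ξ ∈ s l, (x ∈ V ξ ↔ v l ξ = true)}, ?_⟩
  refine
    { closed := hΔc.isClosed
      big := hΔ
      clopenG := hG1
      disj := hG2
      clopenO := fun ξ hξ => by rw [hOT ⟨ξ, hξ⟩]; exact hO0c _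
      eqO := fun ξ hξ => heqO ⟨ξ, hξ⟩
      subs := fun l ξ hξ => ((hs l ξ).1 hξ).1
      event := fun ξ hξ => ⟨e ⟨ξ, hξ⟩, fun l hl => (hs l ξ).2 ⟨hξ, hl⟩⟩
      hom := hG4
      conv := ?_
      defV := rfl
      hits := ?_ }
  · intro O' hO' hΔO'
    obtain ⟨j, hj⟩ := hQs O' hO'
    refine ⟨j, fun l hl x hx => ?_⟩
    rw [← hj]
    exact hG3 l hx j hl (by rw [hj]; exact hΔO')
  · intro n hn
    refine (hG5 n hn).trans_le (measure_mono (inter_subset_inter_right _ ?_))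
    exact subset_iUnion (fun l => G l ∩ {x | ∀ ξ ∈ s l, (x ∈ V ξ ↔ v l ξ = true)}) n

end Pool.Agent.Y443.MS
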