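import Pool.Agent.Y443.MSC

/-!
Measures with metrizable-like support (MP_5a7e2f_gt), part D: the compact space and the measure.
-/

open MeasureTheory Set Topology Filter
open scoped ENNReal NNReal CompactlySupported

namespace Pool.Agent.Y443.MS

section Space

variable {I : Type} [LinearOrder I]

/-- The result of the recursion. -/
structure Seq (I : Type) [LinearOrder I] (lam : Measure (ℕ → Bool))
    (E : I → ℕ → Set (ℕ → Bool)) where
  V : I → Set (ℕ → Bool)
  Δ : I → Set (ℕ → Bool)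
  G : I → ℕ → Set (ℕ → Bool)
  O : I → I → Set (ℕ → Bool)
  s : I → ℕ → Finset I
  v : I → ℕ → I → Bool
  meas : ∀ b, MeasurableSet (V b)
  step : ∀ b, StepData lam (Iio b) V (E b) (Δ b) (G b) (O b) (s b) (v b) (V b)

theorem exists_seq [WellFoundedLT I] (hI : ∀ i : I, (Iio i).Countable)
    (lam : Measure (ℕ → Bool)) [IsProbabilityMeasure lam] (hna : ∀ x, lam {x} = 0)
    (E : I → ℕ → Set (ℕ → Bool)) (hE : ∀ b n, MeasurableSet (E b n)) :
    Nonempty (Seq I lam E) := by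
  let D : Type := Set (ℕ → Bool) × Set (ℕ → Bool) × (ℕ → Set (ℕ → Bool)) ×
    (I → Set (ℕ → Bool)) × (ℕ → Finset I) × (ℕ → I → Bool)
  let P : I → (I → D) → D → Prop := fun b f d =>
    MeasurableSet d.1 ∧ StepData lam (Iio b) (fun ξ => (f ξ).1) (E b) d.2.1 d.2.2.1 d.2.2.2.1
      d.2.2.2.2.1 d.2.2.2.2.2 d.1
  obtain ⟨F, hF⟩ := exists_rec (D := D) P (by
    rintro b f g d hfg ⟨h1, h2⟩
    have hfg' : ∀ ξ ∈ Iio b, (f ξ).1 = (g ξ).1 := fun ξ hξ => by rw [hfg ξ hξ]
    refine ⟨h1, ?_⟩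
    exact
      { closed := h2.closed
        big := h2.big
        clopenG := h2.clopenG
        disj := h2.disj
        clopenO := h2.clopenO
        eqO := fun ξ hξ x hx => by
          have h3 : x ∈ (f ξ).1 ↔ x ∈ d.2.2.2.1 ξ := h2.eqO ξ hξ x hx
          rw [hfg' ξ hξ] at h3
          exact h3
        subs := h2.subs
        event := h2.event
        hom := h2.hom
        conv := h2.conv
        defV := by
          rw [h2.defV]
          refine iUnion_congr fun l => ?_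
          congr 1
          ext x
          simp only [mem_ofPred_eq]
          refine forall₂_congr fun ξ hξ => ?_
          rw [hfg' ξ (h2.subs l ξ hξ)]
        hits := h2.hits }) (by
    intro b f hf
    obtain ⟨Δ, G, O, s, v, V', h⟩ := exists_step lam hna (Iio b) (hI b) (fun ξ => (f ξ).1)
      (fun ξ hξ => (hf ξ hξ).1) (E b) (hE b)
    refine ⟨⟨V', Δ, G, O, s, v⟩, ?_, h⟩
    show MeasurableSet V'
    rw [h.defV]
    refine MeasurableSet.iUnion fun l => (h.clopenG l).isOpen.measurableSet.inter ?_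
    have : {x : ℕ → Bool | ∀ ξ ∈ s l, (x ∈ (f ξ).1 ↔ v l ξ = true)} =
        ⋂ ξ ∈ s l, {x | x ∈ (f ξ).1 ↔ v l ξ = true} := by
      ext x; simp
    rw [this]
    refine Finset.measurableSet_biInter _ fun ξ hξ => ?_
    have hm := (hf ξ (h.subs l ξ hξ)).1
    cases hv : v l ξ
    · have : {x : ℕ → Bool | x ∈ (f ξ).1 ↔ false = true} = ((f ξ).1)ᶜ := by
        ext x; simp
      rw [this]; exact hm.compl
    · have : {x : ℕ → Bool | x ∈ (f ξ).1 ↔ true = true} = (f ξ).1 := by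
        ext x; simp
      rw [this]; exact hm)
  exact ⟨
    { V := fun b => (F b).1
      Δ := fun b => (F b).2.1
      G := fun b => (F b).2.2.1
      O := fun b => (F b).2.2.2.1
      s := fun b => (F b).2.2.2.2.1
      v := fun b => (F b).2.2.2.2.2
      meas := fun b => (hF b).1
      step := fun b => (hF b).2 }⟩

/-- Sets between a compact and an open set depending on finitely many coordinates. -/
theorem exists_dep_between {J : Type*} {C O : Set (J → Bool)} (hC : IsCompact C) (hO : IsOpen O)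
    (hCO : C ⊆ O) : ∃ (s : Finset J) (W : Set (J → Bool)), Dep (s : Set J) W ∧ C ⊆ W ∧ W ⊆ O := by
  classical
  have h1 : ∀ x ∈ C, ∃ s : Finset J, {y : J → Bool | ∀ i ∈ s, y i = x i} ⊆ O := by
    intro x hx
    obtain ⟨s, u, hu, hsub⟩ := isOpen_pi_iff.1 hO x (hCO hx)
    refine ⟨s, fun y hy => hsub ?_⟩
    intro i hi
    rw [hy i hi]
    exact (hu i hi).2
  choose! s hs using h1
  have hdep : ∀ x, Dep (s x : Set J) {y : J → Bool | ∀ i ∈ s x, y i = x i} := by
    intro x y z hyz hy i hi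
    rw [← hyz i hi]
    exact hy i hi
  obtain ⟨t, ht1, ht2⟩ := hC.elim_nhds_subcover (fun x => {y : J → Bool | ∀ i ∈ s x, y i = x i})
    (fun x _ => ((hdep x).isClopen (s x).finite_toSet).isOpen.mem_nhds fun i _ => rfl)
  refine ⟨t.biUnion s, ⋃ x ∈ t, {y : J → Bool | ∀ i ∈ s x, y i = x i}, ?_, ht2, ?_⟩
  · refine Dep.biUnion (t : Set (J → Bool)) _ fun x hx => (hdep x).mono ?_
    intro j hj
    simp only [Finset.coe_biUnion, mem_iUnion, Finset.mem_coe, exists_prop]
    exact ⟨x, hx, hj⟩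
  · refine iUnion₂_subset fun x hx => hs x (ht1 x hx)

variable {lam : Measure (ℕ → Bool)} {E : I → ℕ → Set (ℕ → Bool)} (S : Seq I lam E)

open Classical in
/-- The canonical map. -/
noncomputable def Seq.c (x : ℕ → Bool) : ℕ ⊕ I → Bool
  | Sum.inl n => x n
  | Sum.inr b => decide (x ∈ S.V b)

theorem Seq.c_inr (x : ℕ → Bool) (b : I) : S.c x (Sum.inr b) = true ↔ x ∈ S.V b := by
  simp [Seq.c]

theorem Seq.pr_c (x : ℕ → Bool) : pr (S.c x) = x := rfl

/-- The space. -/
def Seq.K : Set (ℕ ⊕ I → Bool) := closure (range S.c)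

/-- The boxes. -/
def Seq.B (b : I) (l : ℕ) : Set (ℕ ⊕ I → Bool) :=
  {y | pr y ∈ S.G b l ∧ ∀ ξ ∈ S.s b l, y (Sum.inr ξ) = S.v b l ξ}

theorem Seq.B_dep (b : I) (l : ℕ) : ∃ s : Finset (ℕ ⊕ I), (s : Set (ℕ ⊕ I)) ⊆ lo b ∧
    Dep (s : Set (ℕ ⊕ I)) (S.B b l) := by
  classical
  obtain ⟨s, W, hW, hW1, hW2⟩ := exists_dep_between
    ((S.step b).clopenG l).isClosed.isCompact ((S.step b).clopenG l).isOpen Subset.rfl
  have hWG : W = S.G b l := Subset.antisymm hW2 hW1
  subst hWG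
  refine ⟨s.map ⟨Sum.inl, Sum.inl_injective⟩ ∪ (S.s b l).map ⟨Sum.inr, Sum.inr_injective⟩,
    ?_, ?_⟩
  · intro j hj i hi
    subst hi
    simp only [Finset.coe_union, Finset.coe_map, Function.Embedding.coeFn_mk, mem_union,
      mem_image, Finset.mem_coe, reduceCtorEq, and_false, exists_false, Sum.inr.injEq,
      exists_eq_right, false_or] at hj
    exact (S.step b).subs l i hj
  · rintro x y hxy ⟨h1, h2⟩
    refine ⟨hW (pr x) (pr y) (fun n hn => hxy (Sum.inl n) ?_) h1, fun ξ hξ => ?_⟩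
    · simp only [Finset.coe_union, Finset.coe_map, Function.Embedding.coeFn_mk, mem_union]
      exact Or.inl ⟨n, hn, rfl⟩
    · rw [← hxy (Sum.inr ξ) ?_]
      · exact h2 ξ hξ
      · simp only [Finset.coe_union, Finset.coe_map, Function.Embedding.coeFn_mk, mem_union]
        exact Or.inr ⟨ξ, hξ, rfl⟩

theorem Seq.mem_V_iff (b : I) (x : ℕ → Bool) : x ∈ S.V b ↔ ∃ l, S.c x ∈ S.B b l := by
  rw [(S.step b).defV]
  simp only [mem_iUnion, mem_inter_iff, mem_ofPred_eq, Seq.B, Seq.pr_c]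
  refine exists_congr fun l => and_congr_right fun _ => forall₂_congr fun ξ _ => ?_
  rw [← S.c_inr x ξ]
  cases S.c x (Sum.inr ξ) <;> cases S.v b l ξ <;> simp

theorem Seq.isClopen_B (b : I) (l : ℕ) : IsClopen (S.B b l) := by
  obtain ⟨s, _, hs⟩ := S.B_dep b l
  exact hs.isClopen s.finite_toSet

theorem isClopen_coord {J : Type*} (j : J) : IsClopen {y : J → Bool | y j = true} :=
  (dep_coord j).isClopen (finite_singleton _)

theorem Seq.B_true (b : I) (l : ℕ) (y : ℕ ⊕ I → Bool) (hy : y ∈ S.K) (hB : y ∈ S.B b l) :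
    y (Sum.inr b) = true := by
  have hcl : IsClosed ((S.B b l)ᶜ ∪ {y : ℕ ⊕ I → Bool | y (Sum.inr b) = true}) :=
    (S.isClopen_B b l).compl.isClosed.union (isClopen_coord _).isClosed
  have hsub : range S.c ⊆ (S.B b l)ᶜ ∪ {y : ℕ ⊕ I → Bool | y (Sum.inr b) = true} := by
    rintro _ ⟨x, rfl⟩
    by_cases h : S.c x ∈ S.B b l
    · right
      exact (S.c_inr x b).2 ((S.mem_V_iff b x).2 ⟨l, h⟩)
    · exact Or.inl h
  rcases (hcl.closure_subset_iff.2 hsub) hy with h | h
  · exact absurd hB h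
  · exact h

/-- Points of the exceptional sets: their projections lie in `Δ b`. -/
theorem Seq.exc_mem (b : I) (y : ℕ ⊕ I → Bool) (hy : y ∈ S.K) (hb : y (Sum.inr b) = true)
    (hB : ∀ l, y ∉ S.B b l) : pr y ∈ S.Δ b := by
  classical
  by_contra hcon
  obtain ⟨O', hO'c, hO'1, hO'2⟩ := exists_clopen_of_closed_subset_open (S.step b).closed
    (isOpen_compl_singleton (x := pr y)) (fun z hz h => hcon (by rw [← h]; exact hz))
  obtain ⟨m, hm⟩ := (S.step b).conv O' hO'c hO'1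
  have hyO' : pr y ∉ O' := fun h => hO'2 h rfl
  let U : Set (ℕ ⊕ I → Bool) := {z | z (Sum.inr b) = true} ∩ (pr ⁻¹' O'ᶜ ∩
    ⋂ l ∈ Finset.range m, (S.B b l)ᶜ)
  have hU : IsOpen U := (isClopen_coord _).isOpen.inter
    ((hO'c.compl.isOpen.preimage continuous_pr).inter
      (isOpen_biInter_finset fun l _ => (S.isClopen_B b l).compl.isOpen))
  have hyU : y ∈ U := ⟨hb, hyO', by simp only [mem_iInter]; exact fun l _ => hB l⟩
  obtain ⟨_, hz, x, rfl⟩ := mem_closure_iff.1 hy U hU hyU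
  have hxV := (S.c_inr x b).1 hz.1
  obtain ⟨l, hl⟩ := (S.mem_V_iff b x).1 hxV
  have hlm : m ≤ l := by
    by_contra h
    have := hz.2.2
    simp only [mem_iInter] at this
    exact this l (Finset.mem_range.2 (not_le.1 h)) hl
  exact hz.2.1 (hm l hlm hl.1)

/-- Points of the exceptional sets are canonical below. -/
theorem Seq.exc_canonical (b : I) (y : ℕ ⊕ I → Bool) (hy : y ∈ S.K)
    (hb : y (Sum.inr b) = true) (hB : ∀ l, y ∉ S.B b l) (ξ : I) (hξ : ξ < b) :
    y (Sum.inr ξ) = true ↔ pr y ∈ S.V ξ := by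
  classical
  have hΔ := S.exc_mem b y hy hb hB
  obtain ⟨m, hm⟩ := (S.step b).event ξ hξ
  rw [(S.step b).eqO ξ hξ _ hΔ]
  have hOc := (S.step b).clopenO ξ hξ
  let U : Set (ℕ ⊕ I → Bool) := {z | z (Sum.inr b) = true} ∩
    ({z | z (Sum.inr ξ) = y (Sum.inr ξ)} ∩ (pr ⁻¹' {x | x ∈ S.O b ξ ↔ pr y ∈ S.O b ξ} ∩
      ⋂ l ∈ Finset.range m, (S.B b l)ᶜ))
  have h1 : IsOpen {x : ℕ → Bool | x ∈ S.O b ξ ↔ pr y ∈ S.O b ξ} := by
    by_cases h : pr y ∈ S.O b ξ
    · have : {x : ℕ → Bool | x ∈ S.O b ξ ↔ pr y ∈ S.O b ξ} = S.O b ξ := by ext x; simp [h]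
      rw [this]; exact hOc.isOpen
    · have : {x : ℕ → Bool | x ∈ S.O b ξ ↔ pr y ∈ S.O b ξ} = (S.O b ξ)ᶜ := by ext x; simp [h]
      rw [this]; exact hOc.compl.isOpen
  have hU : IsOpen U := (isClopen_coord _).isOpen.inter
    (((isOpen_discrete {y (Sum.inr ξ)}).preimage
      (continuous_apply (A := fun _ => Bool) (Sum.inr ξ : ℕ ⊕ I))).inter
        ((h1.preimage continuous_pr).inter
      (isOpen_biInter_finset fun l _ => (S.isClopen_B b l).compl.isOpen)))
  have hyU : y ∈ U := ⟨hb, rfl, Iff.rfl, by simp only [mem_iInter]; exact fun l _ => hB l⟩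
  obtain ⟨_, hz, x, rfl⟩ := mem_closure_iff.1 hy U hU hyU
  have hxV := (S.c_inr x b).1 hz.1
  obtain ⟨l, hl⟩ := (S.mem_V_iff b x).1 hxV
  have hlm : m ≤ l := by
    by_contra h
    have := hz.2.2.2
    simp only [mem_iInter] at this
    exact this l (Finset.mem_range.2 (not_le.1 h)) hl
  have h2 : S.c x (Sum.inr ξ) = S.v b l ξ := hl.2 ξ (hm l hlm)
  have h3 : S.c x (Sum.inr ξ) = y (Sum.inr ξ) := hz.2.1
  have h4 : x ∈ S.O b ξ ↔ pr y ∈ S.O b ξ := hz.2.2.1
  rw [← h3, h2, ← h4]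
  rcases (S.step b).hom l ξ (hm l hlm) with ⟨h5, h6⟩ | ⟨h5, h6⟩
  · rw [h6]; exact ⟨fun _ => h5 hl.1, fun _ => rfl⟩
  · rw [h6]; exact ⟨fun h => absurd h (by simp), fun h => absurd h (Set.disjoint_left.1 h5 hl.1)⟩

/-- The thin system. -/
def Seq.thin : Thin I where
  K := S.K
  closed := isClosed_closure
  G := S.G
  G_meas b l := ((S.step b).clopenG l).isOpen.measurableSet
  G_fin b x := by
    by_cases hx : x ∈ S.Δ b
    · have : {l | x ∈ S.G b l} = ∅ := by
        rw [eq_empty_iff_forall_notMem]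
        exact fun l hl => Set.disjoint_left.1 ((S.step b).disj l) hl hx
      rw [this]
      exact finite_empty
    · obtain ⟨O', hO'c, hO'1, hO'2⟩ := exists_clopen_of_closed_subset_open (S.step b).closed
        (isOpen_compl_singleton (x := x)) (fun z hz h => hx (by rw [← h]; exact hz))
      obtain ⟨m, hm⟩ := (S.step b).conv O' hO'c hO'1
      refine (finite_Iio m).subset fun l hl => ?_
      by_contra h
      exact hO'2 (hm l (not_lt.1 h) hl) rfl
  B := S.B
  B_dep := S.B_dep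
  B_sub _ _ _ hy := hy.1
  B_true := S.B_true
  disj := by
    intro b c hbc y hy hb hBb hc hBc
    have h1 : pr y ∈ S.V b := (S.exc_canonical c y hy hc hBc b hbc).1 hb
    obtain ⟨l, hl⟩ := (S.mem_V_iff b (pr y)).1 h1
    refine hBb l ⟨hl.1, fun ξ hξ => ?_⟩
    have h2 := hl.2 ξ hξ
    have h3 : ξ < c := ((S.step b).subs l ξ hξ).trans hbc
    have h4 := S.exc_canonical c y hy hc hBc ξ h3
    have h5 := S.c_inr (pr y) ξ
    rw [← h2]
    cases h6 : y (Sum.inr ξ) <;> cases h7 : S.c (pr y) (Sum.inr ξ)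
    · rfl
    · exact absurd (h4.2 (h5.1 h7)) (by simp [h6])
    · exact absurd (h5.2 (h4.1 h6)) (by simp [h7])
    · rfl

end Space

end Pool.Agent.Y443.MS
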