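import Pool.Agent.Y443.MSD

/-!
Measures with metrizable-like support (MP_5a7e2f_gt), part E: the canonical measure and the failure
of metrizable-like support.
-/

open MeasureTheory Set Topology Filter
open scoped ENNReal NNReal CompactlySupported

namespace Pool.Agent.Y443.MS

theorem Dep.measurableSet {J : Type*} {s : Finset J} {W : Set (J → Bool)}
    (h : Dep (s : Set J) W) : MeasurableSet W := by
  classical
  let r : (J → Bool) → (s → Bool) := fun x i => x i
  have hr : Measurable r := measurable_pi_lambda _ fun i => measurable_pi_apply _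
  have hW : W = r ⁻¹' (r '' W) := by
    refine Subset.antisymm (subset_preimage_image _ _) ?_
    rintro y ⟨x, hx, hxy⟩
    exact h x y (fun i hi => congrFun hxy ⟨i, hi⟩) hx
  rw [hW]
  exact hr (toFinite _).measurableSet

section Measure

variable {I : Type} [LinearOrder I] {lam : Measure (ℕ → Bool)} {E : I → ℕ → Set (ℕ → Bool)}
  (S : Seq I lam E)

theorem Seq.measurable_c : Measurable S.c := by
  refine measurable_pi_iff.2 ?_
  rintro (n | b)
  · exact measurable_pi_apply n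
  · refine measurable_to_bool ?_
    have : (fun x => S.c x (Sum.inr b)) ⁻¹' {true} = S.V b := by
      ext x
      exact S.c_inr x b
    rw [this]
    exact S.meas b

/-- The canonical map into the space. -/
noncomputable def Seq.cK (x : ℕ → Bool) : S.K := ⟨S.c x, subset_closure ⟨x, rfl⟩⟩

instance : CompactSpace S.K := isCompact_iff_compactSpace.1 isClosed_closure.isCompact

theorem Seq.measurable_comp (f : C(S.K, ℝ)) : Measurable fun x => f (S.cK x) := by
  let A : Submodule ℝ C(S.K, ℝ) :=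
    { carrier := {f | Measurable fun x => f (S.cK x)}
      add_mem' := fun {a b} ha hb => by
        exact Measurable.add (f := fun y => a (S.cK y)) (g := fun y => b (S.cK y)) ha hb
      zero_mem' := by
        simp only [mem_ofPred_eq, ContinuousMap.zero_apply]
        exact measurable_const
      smul_mem' := fun c a ha => by
        exact Measurable.const_mul (f := fun y => a (S.cK y)) ha c }
  have hA : A = ⊤ := by
    refine dense_boxes A ?_ fun s => ?_
    · rw [← isSeqClosed_iff_isClosed]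
      intro g f hg hf
      refine measurable_of_tendsto_metrizable (f := fun n y => g n (S.cK y)) (fun n => hg n) ?_
      rw [tendsto_pi_nhds]
      intro y
      exact ((continuous_eval_const (S.cK y)).tendsto f).comp hf
    · show Measurable fun x => ind S.K (pbox s) (isClopen_pbox s) (S.cK x)
      have : (fun x => ind S.K (pbox s) (isClopen_pbox s) (S.cK x)) =
          (S.c ⁻¹' pbox s).indicator fun _ => (1 : ℝ) := by
        funext x
        by_cases hx : S.c x ∈ pbox s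
        · rw [ind_mem (y := S.cK x) _ hx, indicator_of_mem (show x ∈ S.c ⁻¹' pbox s from hx)]
        · rw [ind_notMem (y := S.cK x) _ hx,
            indicator_of_notMem (show x ∉ S.c ⁻¹' pbox s from hx)]
      rw [this]
      exact measurable_const.indicator (S.measurable_c (dep_pbox s).measurableSet)
  have : f ∈ A := by rw [hA]; exact Submodule.mem_top
  exact this

variable [IsProbabilityMeasure lam] [MeasurableSpace S.K] [BorelSpace S.K]

theorem Seq.exists_mu : ∃ m : Measure S.K, m.Regular ∧ IsProbabilityMeasure m ∧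
    ∀ W : Set (ℕ ⊕ I → Bool), MeasurableSet W → m (Subtype.val ⁻¹' W) = lam (S.c ⁻¹' W) := by
  have hint : ∀ g : C(S.K, ℝ), Integrable (fun y => g (S.cK y)) lam := fun g =>
    Integrable.of_bound (S.measurable_comp g).aestronglyMeasurable ‖g‖
      (Eventually.of_forall fun y => g.norm_coe_le_norm (S.cK y))
  let Λ : C_c(S.K, ℝ) →ₚ[ℝ] ℝ :=
  { toFun g := ∫ y, g (S.cK y) ∂lam
    map_add' g g' := integral_add (hint g.toContinuousMap) (hint g'.toContinuousMap)
    map_smul' c g := integral_const_mul c _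
    monotone' g g' hgg' := integral_mono (hint g.toContinuousMap) (hint g'.toContinuousMap)
      fun y => hgg' _ }
  have hf : ∀ f : C(S.K, ℝ),
      ∫ a, f a ∂(RealRMK.rieszMeasure Λ) = ∫ y, f (S.cK y) ∂lam := by
    intro f
    let g' : C_c(S.K, ℝ) :=
      { toFun := f
        hasCompactSupport' := HasCompactSupport.of_compactSpace _ }
    exact RealRMK.integral_rieszMeasure Λ g'
  set m := RealRMK.rieszMeasure Λ with hm
  have hprob : IsProbabilityMeasure m := by
    have h1 := hf (ContinuousMap.const _ 1)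
    simp only [ContinuousMap.const_apply, integral_const, smul_eq_mul, mul_one,
      probReal_univ] at h1
    constructor
    have h2 : m.real univ = 1 := h1
    rw [measureReal_def] at h2
    have h3 := congrArg ENNReal.ofReal h2
    rwa [ENNReal.ofReal_toReal (measure_ne_top _ _), ENNReal.ofReal_one] at h3
  refine ⟨m, inferInstance, hprob, ?_⟩
  have hval : Measurable (Subtype.val : S.K → (ℕ ⊕ I → Bool)) := by
    refine measurable_pi_iff.2 fun j => ?_
    exact ((continuous_apply j).comp continuous_subtype_val).measurable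
  have key : m.map Subtype.val = lam.map S.c := by
    have : IsProbabilityMeasure (m.map (Subtype.val : S.K → (ℕ ⊕ I → Bool))) :=
      Measure.isProbabilityMeasure_map hval.aemeasurable
    have : IsProbabilityMeasure (lam.map S.c) :=
      Measure.isProbabilityMeasure_map S.measurable_c.aemeasurable
    refine ext_of_generate_finite (measurableCylinders fun _ : ℕ ⊕ I => Bool)
      generateFrom_measurableCylinders.symm isPiSystem_measurableCylinders ?_ ?_
    · intro U hU
      obtain ⟨s, T, hT, rfl⟩ := (mem_measurableCylinders _).1 hU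
      have hd : Dep (s : Set (ℕ ⊕ I)) (cylinder (α := fun _ : ℕ ⊕ I => Bool) s T) := by
        intro x y hxy hx
        simp only [mem_cylinder] at hx ⊢
        convert hx using 1
        funext i
        exact (hxy i.1 i.2).symm
      have hU' := hd.measurableSet
      rw [Measure.map_apply hval hU', Measure.map_apply S.measurable_c hU']
      have h1 := hf (ind S.K _ (hd.isClopen s.finite_toSet))
      rw [integral_ind] at h1
      have h2 : (fun y => ind S.K _ (hd.isClopen s.finite_toSet) (S.cK y)) =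
          (S.c ⁻¹' (cylinder (α := fun _ : ℕ ⊕ I => Bool) s T)).indicator fun _ => (1 : ℝ) := by
        funext x
        by_cases hx : S.c x ∈ cylinder (α := fun _ : ℕ ⊕ I => Bool) s T
        · rw [ind_mem (y := S.cK x) _ hx, indicator_of_mem
            (show x ∈ S.c ⁻¹' cylinder (α := fun _ : ℕ ⊕ I => Bool) s T from hx)]
        · rw [ind_notMem (y := S.cK x) _ hx, indicator_of_notMem
            (show x ∉ S.c ⁻¹' cylinder (α := fun _ : ℕ ⊕ I => Bool) s T from hx)]
      rw [h2, integral_indicator_const _ (S.measurable_c hU'), smul_eq_mul, mul_one] at h1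
      rw [measureReal_def, measureReal_def] at h1
      have h3 := congrArg ENNReal.ofReal h1
      rwa [ENNReal.ofReal_toReal (measure_ne_top _ _),
        ENNReal.ofReal_toReal (measure_ne_top _ _)] at h3
    · rw [measure_univ, measure_univ]
  intro W hW
  have h1 : (m.map Subtype.val) W = (lam.map S.c) W := by rw [key]
  rwa [Measure.map_apply hval hW, Measure.map_apply S.measurable_c hW] at h1

omit [BorelSpace S.K] in
/-- Approximation of a closed set by a Borel subset of the Cantor space. -/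
theorem Seq.exists_E (m : Measure S.K) [IsProbabilityMeasure m] [m.Regular]
    (hm : ∀ W : Set (ℕ ⊕ I → Bool), MeasurableSet W → m (Subtype.val ⁻¹' W) = lam (S.c ⁻¹' W))
    (F : Set S.K) (hF : IsClosed F) :
    ∃ E' : Set (ℕ → Bool), MeasurableSet E' ∧
      (∀ W : Set (ℕ ⊕ I → Bool), MeasurableSet W → Disjoint F (Subtype.val ⁻¹' W) →
        lam (E' ∩ S.c ⁻¹' W) = 0) ∧
      ∀ D : Set (ℕ → Bool), MeasurableSet D →
        m (F ∩ Subtype.val ⁻¹' (pr ⁻¹' D)) ≤ lam (E' ∩ D) := by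
  have h1 : ∀ k : ℕ, ∃ W : Set (ℕ ⊕ I → Bool), MeasurableSet W ∧ F ⊆ Subtype.val ⁻¹' W ∧
      m (Subtype.val ⁻¹' W) ≤ m F + 1 / ((k : ℝ≥0∞) + 1) := by
    intro k
    have hk : (1 / ((k : ℝ≥0∞) + 1)) ≠ 0 := by
      refine (ENNReal.div_pos one_ne_zero ?_).ne'
      exact ENNReal.add_ne_top.2 ⟨ENNReal.natCast_ne_top k, ENNReal.one_ne_top⟩
    obtain ⟨U, hFU, hU, hmU⟩ := F.exists_isOpen_lt_add (measure_ne_top m F) hk
    obtain ⟨O, hO, rfl⟩ := isOpen_induced_iff.1 hU
    obtain ⟨s, W, hW, hW1, hW2⟩ := exists_dep_between (hF.isCompact.image continuous_subtype_val)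
      hO (image_subset_iff.2 hFU)
    exact ⟨W, hW.measurableSet, image_subset_iff.1 hW1,
      (measure_mono (preimage_mono hW2)).trans hmU.le⟩
  choose W hWm hFW hmW using h1
  have hWi : MeasurableSet (⋂ k, W k) := MeasurableSet.iInter hWm
  have hFWi : F ⊆ Subtype.val ⁻¹' (⋂ k, W k) := fun y hy => mem_iInter.2 fun k => hFW k hy
  have hle : lam (S.c ⁻¹' (⋂ k, W k)) ≤ m F := by
    rw [← hm _ hWi]
    refine ENNReal.le_of_forall_pos_le_add fun ε hε _ => ?_
    obtain ⟨k, hk⟩ := ENNReal.exists_inv_nat_lt (ENNReal.coe_pos.2 hε).ne'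
    refine (measure_mono (preimage_mono (iInter_subset _ k))).trans ((hmW k).trans ?_)
    refine add_le_add le_rfl (le_trans ?_ hk.le)
    rw [one_div]
    exact ENNReal.inv_le_inv.2 le_self_add
  refine ⟨S.c ⁻¹' (⋂ k, W k), S.measurable_c hWi, ?_, ?_⟩
  · intro Y hY hd
    have h2 : m F ≤ lam (S.c ⁻¹' (⋂ k, W k) \ S.c ⁻¹' Y) := by
      rw [← preimage_sdiff, ← hm _ (MeasurableSet.diff hWi hY)]
      refine measure_mono fun y hy => ⟨hFWi hy, fun h => Set.disjoint_left.1 hd hy h⟩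
    have h3 := measure_inter_add_sdiff (μ := lam) (S.c ⁻¹' (⋂ k, W k)) (S.measurable_c hY)
    have h4 : lam (S.c ⁻¹' (⋂ k, W k) ∩ S.c ⁻¹' Y) + lam (S.c ⁻¹' (⋂ k, W k)) ≤
        0 + lam (S.c ⁻¹' (⋂ k, W k)) := by
      rw [zero_add]
      calc _ ≤ lam (S.c ⁻¹' (⋂ k, W k) ∩ S.c ⁻¹' Y) +
            lam (S.c ⁻¹' (⋂ k, W k) \ S.c ⁻¹' Y) := add_le_add le_rfl (hle.trans h2)
        _ = _ := h3
    have h5 := (ENNReal.add_le_add_iff_right (measure_ne_top lam _)).1 h4
    exact nonpos_iff_eq_zero.1 h5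
  · intro D hD
    have hpr : Measurable (pr : (ℕ ⊕ I → Bool) → (ℕ → Bool)) :=
      measurable_pi_iff.2 fun n => measurable_pi_apply _
    have h2 : m (F ∩ Subtype.val ⁻¹' (pr ⁻¹' D)) ≤
        m (Subtype.val ⁻¹' ((⋂ k, W k) ∩ pr ⁻¹' D)) :=
      measure_mono fun y hy => ⟨hFWi hy.1, hy.2⟩
    rw [hm _ (hWi.inter (hpr hD))] at h2
    exact h2

omit [BorelSpace S.K] in
theorem Seq.no_support (H : I → Set (ℕ → Bool))
    (hH : ∀ E' : Set (ℕ → Bool), MeasurableSet E' → ∃ C : Set I, C.Countable ∧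
      (∀ ξ ∈ C, H ξ ⊆ E') ∧ lam (E' \ ⋃ ξ ∈ C, H ξ) = 0)
    (hE : ∀ b, ∀ ξ < b, ∃ n, E b n = H ξ)
    (hup : ∀ C : Set I, C.Countable → ∃ b, ∀ c ∈ C, c < b)
    (m : Measure S.K) [IsProbabilityMeasure m] [m.Regular]
    (hm : ∀ W : Set (ℕ ⊕ I → Bool), MeasurableSet W → m (Subtype.val ⁻¹' W) = lam (S.c ⁻¹' W)) :
    ¬ ∃ A : ℕ → Finset (Set S.K), (∀ i, ∀ F ∈ A i, IsCompact F) ∧
      (∀ i, ((A i : Set (Set S.K))).PairwiseDisjoint id) ∧
      ∀ U : Set (Set S.K), (∀ u ∈ U, IsOpen u) → ⋃₀ U = Set.univ → ∀ ε : ENNReal, 0 < ε →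
        ∃ i, (∀ F ∈ A i, ∃ u ∈ U, F ⊆ u) ∧
          m (Set.univ \ ⋃₀ ((A i : Set (Set S.K)))) < ε := by
  classical
  rintro ⟨A, hA1, -, hA3⟩
  have h1 : ∀ F : Set S.K, IsClosed F → ∃ (E' : Set (ℕ → Bool)) (C : Set I),
      C.Countable ∧ (∀ ξ ∈ C, H ξ ⊆ E') ∧ lam (E' \ ⋃ ξ ∈ C, H ξ) = 0 ∧
      (∀ W : Set (ℕ ⊕ I → Bool), MeasurableSet W → Disjoint F (Subtype.val ⁻¹' W) →
        lam (E' ∩ S.c ⁻¹' W) = 0) ∧
      ∀ D : Set (ℕ → Bool), MeasurableSet D →
        m (F ∩ Subtype.val ⁻¹' (pr ⁻¹' D)) ≤ lam (E' ∩ D) := by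
    intro F hF
    obtain ⟨E', hE'1, hE'2, hE'3⟩ := S.exists_E m hm F hF
    obtain ⟨C, hC1, hC2, hC3⟩ := hH E' hE'1
    exact ⟨E', C, hC1, hC2, hC3, hE'2, hE'3⟩
  choose! E' C hC1 hC2 hC3 hE'2 hE'3 using h1
  have hcount : (⋃ i, (A i : Set (Set S.K))).Countable :=
    countable_iUnion fun i => (A i).countable_toSet
  obtain ⟨b, hb⟩ := hup (⋃ F ∈ ⋃ i, (A i : Set (Set S.K)), if IsClosed F then C F else ∅)
    (hcount.biUnion fun F _ => by
      split_ifs with h
      · exact hC1 F h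
      · exact countable_empty)
  have hclA : ∀ i, ∀ F ∈ A i, IsClosed F := fun i F hF => (hA1 i F hF).isClosed
  have hbC : ∀ i, ∀ F ∈ A i, ∀ ξ ∈ C F, ξ < b := by
    intro i F hF ξ hξ
    refine hb ξ (mem_biUnion (mem_iUnion.2 ⟨i, hF⟩) ?_)
    rw [if_pos (hclA i F hF)]
    exact hξ
  have hVΔ : S.V b ∩ S.Δ b = ∅ := by
    rw [(S.step b).defV, eq_empty_iff_forall_notMem]
    rintro x ⟨hx1, hx2⟩
    obtain ⟨l, hl⟩ := mem_iUnion.1 hx1
    exact Set.disjoint_left.1 ((S.step b).disj l) hl.1 hx2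
  -- sets of positive measure on `Δ b` are hit by `V b`
  have hhit : ∀ i, ∀ F ∈ A i, 0 < lam (E' F ∩ S.Δ b) → 0 < lam (E' F ∩ S.V b) := by
    intro i F hF hpos
    have hcl := hclA i F hF
    have h2 : ∃ ξ ∈ C F, 0 < lam (H ξ ∩ S.Δ b) := by
      by_contra h
      push Not at h
      have h3 : lam ((⋃ ξ ∈ C F, H ξ ∩ S.Δ b) ∪ (E' F \ ⋃ ξ ∈ C F, H ξ)) = 0 := by
        refine measure_union_null ?_ (hC3 F hcl)
        exact (measure_biUnion_null_iff (hC1 F hcl)).2 fun ξ hξ => nonpos_iff_eq_zero.1 (h ξ hξ)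
      refine hpos.ne' (measure_mono_null ?_ h3)
      rintro x ⟨hx1, hx2⟩
      by_cases h4 : x ∈ ⋃ ξ ∈ C F, H ξ
      · left
        simp only [mem_iUnion, exists_prop] at h4 ⊢
        obtain ⟨ξ, hξ, h4⟩ := h4
        exact ⟨ξ, hξ, h4, hx2⟩
      · exact Or.inr ⟨hx1, h4⟩
    obtain ⟨ξ, hξ, hξpos⟩ := h2
    obtain ⟨n, hn⟩ := hE b ξ (hbC i F hF ξ hξ)
    have h5 := (S.step b).hits n (by rw [hn]; exact hξpos)
    rw [hn] at h5
    exact h5.trans_le (measure_mono (inter_subset_inter_left _ (hC2 F hcl ξ hξ)))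
  -- the cover
  let A1 : Set (ℕ ⊕ I → Bool) := {y | y (Sum.inr b) = true}
  have hA1c : IsClopen A1 := isClopen_coord _
  have hA1m : MeasurableSet A1 := by
    have : Dep (({Sum.inr b} : Finset (ℕ ⊕ I)) : Set (ℕ ⊕ I)) A1 := by
      rw [Finset.coe_singleton]; exact dep_coord _
    exact this.measurableSet
  have hcA1 : S.c ⁻¹' A1 = S.V b := by
    ext x
    exact S.c_inr x b
  obtain ⟨i, hi1, hi2⟩ := hA3 {Subtype.val ⁻¹' A1, (Subtype.val ⁻¹' A1)ᶜ} (by
      rintro u (rfl | rfl)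
      · exact hA1c.isOpen.preimage continuous_subtype_val
      · exact (hA1c.isClosed.preimage continuous_subtype_val).isOpen_compl) (by
      rw [sUnion_insert, sUnion_singleton, union_compl_self]) (1 / 4) (by norm_num)
  have hpr : Measurable (pr : (ℕ ⊕ I → Bool) → (ℕ → Bool)) :=
    measurable_pi_iff.2 fun n => measurable_pi_apply _
  have hΔm : MeasurableSet (S.Δ b) := (S.step b).closed.measurableSet
  have hbig : 1 / 2 < m (Subtype.val ⁻¹' (pr ⁻¹' S.Δ b)) := by
    rw [hm _ (hpr hΔm)]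
    exact (S.step b).big
  have hex : ∃ F ∈ A i, 0 < m (F ∩ Subtype.val ⁻¹' (pr ⁻¹' S.Δ b)) := by
    by_contra h
    push Not at h
    have h2 : m (⋃ F ∈ A i, F ∩ Subtype.val ⁻¹' (pr ⁻¹' S.Δ b)) = 0 :=
      (measure_biUnion_null_iff (A i).countable_toSet).2
        fun F hF => nonpos_iff_eq_zero.1 (h F hF)
    have h3 : m (Subtype.val ⁻¹' (pr ⁻¹' S.Δ b)) ≤
        m (⋃ F ∈ A i, F ∩ Subtype.val ⁻¹' (pr ⁻¹' S.Δ b)) +
          m (Set.univ \ ⋃₀ ((A i : Set (Set S.K)))) := by
      refine le_trans (measure_mono ?_) (measure_union_le _ _)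
      intro y hy
      by_cases h4 : y ∈ ⋃₀ ((A i : Set (Set S.K)))
      · left
        obtain ⟨F, hF, hyF⟩ := h4
        exact mem_biUnion hF ⟨hyF, hy⟩
      · exact Or.inr ⟨mem_univ _, h4⟩
    rw [h2, zero_add] at h3
    have h5 : (1 / 2 : ℝ≥0∞) < 1 / 4 := hbig.trans (h3.trans_lt hi2)
    have h6 : (1 / 4 : ℝ≥0∞) ≤ 1 / 2 := by
      rw [one_div, one_div]
      exact ENNReal.inv_le_inv.2 (by norm_num)
    exact absurd h5 (not_lt.2 h6)
  obtain ⟨F, hF, hFpos⟩ := hex
  have hcl := hclA i F hF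
  obtain ⟨u, hu, hFu⟩ := hi1 F hF
  rcases hu with rfl | rfl
  · -- `F` is contained in `A1`
    have h2 : m (F ∩ Subtype.val ⁻¹' (pr ⁻¹' S.Δ b)) ≤
        m (Subtype.val ⁻¹' (A1 ∩ pr ⁻¹' S.Δ b)) :=
      measure_mono fun y hy => ⟨hFu hy.1, hy.2⟩
    rw [hm _ (hA1m.inter (hpr hΔm))] at h2
    have h3 : S.c ⁻¹' (A1 ∩ pr ⁻¹' S.Δ b) = S.V b ∩ S.Δ b := by
      rw [preimage_inter, hcA1]
      rfl
    rw [h3, hVΔ, measure_empty] at h2
    exact absurd hFpos (not_lt.2 h2)
  · -- `F` is contained in the complement of `A1`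
    have h2 : 0 < lam (E' F ∩ S.Δ b) := hFpos.trans_le (hE'3 F hcl _ hΔm)
    have h3 := hhit i F hF h2
    have h4 := hE'2 F hcl A1 hA1m (Set.disjoint_left.2 fun y hy hy' => hFu hy hy')
    rw [hcA1] at h4
    exact h3.ne' h4

end Measure

end Pool.Agent.Y443.MS
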