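import Pool.Agent.Y443.PXE

/-!
Tightness of `P(X)` at Dirac measures (MP_aebb62_gt), part F: the negative direction, the
equivalence and the continuum hypothesis.
-/

open MeasureTheory Set Topology Filter
open scoped ENNReal NNReal BoundedContinuousFunction CompactlySupported

namespace Pool.Agent.Y443.PX

theorem regular_nu {Y : Type} {I : Type} [LinearOrder I] (K : I → Set Y)
    [MeasurableSpace (Fam K)] [BorelSpace (Fam K)] (m : Measure (Fam K)) [IsProbabilityMeasure m]
    (hm : m.Regular) (i : I) : (nu K m i : Measure (Fam K)).Regular := by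
  have h1 : m.InnerRegular := inferInstance
  have h2 : (m.map (restr K (Ici i))).InnerRegular :=
    Measure.InnerRegular.map_of_continuous (continuous_restr K (Ici i))
  have h3 : IsProbabilityMeasure (m.map (restr K (Ici i))) :=
    Measure.isProbabilityMeasure_map (continuous_restr K (Ici i)).measurable.aemeasurable
  show (m.map (restr K (Ici i))).Regular
  infer_instance

/-- The conclusion of the construction: a Corson compact space `X`, a point `x` and an
`ω₁`-sequence of regular Borel probability measures which converges to the Dirac measure at `x`,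
while the Dirac measure is in the closure of no countable part of the sequence. -/
def BadCorson : Prop :=
  ∃ (X : Type) (_ : TopologicalSpace X) (_ : MeasurableSpace X) (_ : BorelSpace X),
    IsCorson X ∧ CountablyTight X ∧ ∃ (x : X) (ν : I1 → ProbabilityMeasure X),
      (∀ i, (ν i : Measure X).Regular) ∧ Tendsto ν atTop (𝓝 (diracP x)) ∧
      ∀ B ⊆ range ν, B.Countable → diracP x ∉ closure B

theorem negative (hN : ¬ NoNullCover) : BadCorson := by
  classical
  unfold NoNullCover at hN
  push Not at hN
  obtain ⟨Y, i1, i2, i3, i4, i5, lam, i6, i7, 𝒩, hcard, hnull, hcov⟩ := hN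
  have hYne : Nonempty Y := by
    by_contra h
    rw [not_nonempty_iff] at h
    have h1 : lam univ = 1 := measure_univ
    have h2 : (univ : Set Y) = ∅ := Set.eq_empty_of_isEmpty _
    rw [h2, measure_empty] at h1
    exact zero_ne_one h1
  have hNne : 𝒩.Nonempty := by
    by_contra h
    rw [Set.not_nonempty_iff_eq_empty] at h
    rw [h, sUnion_empty] at hcov
    obtain ⟨y⟩ := hYne
    exact (hcov ▸ mem_univ y : y ∈ (∅ : Set Y))
  -- enumerate
  have hsurj : ∃ N : I1 → Set Y, 𝒩 ⊆ range N ∧ ∀ i, N i ∈ 𝒩 := by
    have h1 : Cardinal.mk 𝒩 ≤ Cardinal.mk I1 := by rwa [Cardinal.mk_ord_toType]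
    obtain ⟨e⟩ := (Cardinal.le_def _ _).1 h1
    have : Nonempty 𝒩 := hNne.to_subtype
    refine ⟨fun i => (Function.invFun e i : 𝒩), fun N hN => ?_, fun i => (Function.invFun e i).2⟩
    exact ⟨e ⟨N, hN⟩, by simp [Function.leftInverse_invFun e.injective ⟨N, hN⟩]⟩
  obtain ⟨N, hN1, hN2⟩ := hsurj
  have hcov' : ∀ y, ∃ i, y ∈ N i := by
    intro y
    have : y ∈ ⋃₀ 𝒩 := hcov ▸ mem_univ y
    obtain ⟨t, ht, hy⟩ := this
    obtain ⟨i, hi⟩ := hN1 ht
    exact ⟨i, by rw [hi]; exact hy⟩
  obtain ⟨K, hK1, hK2, hK3⟩ := exists_K lam countable_Iic_I1 N (fun i => hnull _ (hN2 i)) hcov'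
  letI : MeasurableSpace (Fam K) := borel _
  haveI : BorelSpace (Fam K) := ⟨rfl⟩
  obtain ⟨m, hm1, hm2, hm3⟩ := exists_measure lam K hK1
  have hsup : ∀ a : Fam K, {i | a.1 i = true}.Countable := by
    intro a
    obtain ⟨y, hy⟩ := exists_common hK1 a.2
    exact (hK3 y).mono fun i hi => hy i hi
  have hcor : IsCorson (Fam K) := by
    refine ⟨inferInstance, inferInstance, I1, fun a i => coord K i a, ?_, fun a => ?_⟩
    · have hc : Continuous fun (a : Fam K) (i : I1) => coord K i a :=
        continuous_pi fun i => (coord K i).continuous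
      refine (hc.isClosedEmbedding ?_).isEmbedding
      intro a b hab
      refine Subtype.ext (funext fun i => ?_)
      have h1 := congrFun hab i
      simp only [coord, ContinuousMap.coe_mk] at h1
      cases ha : a.1 i <;> cases hb : b.1 i <;> simp_all
    · refine (hsup a).mono fun i hi => ?_
      by_contra h
      apply hi
      simp only [mem_ofPred_eq] at h
      simp [coord, h]
  refine ⟨Fam K, inferInstance, borel _, ⟨rfl⟩, hcor, hcor.countablyTight, zero K hYne, nu K m,
    regular_nu K m hm1, tendsto_nu K countable_Iic_I1 not_countable_I1 hYne m, ?_⟩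
  intro B hB hBc
  refine not_mem_closure K countable_Iic_I1 not_countable_I1 hYne m ?_ B hB hBc
  intro i
  rw [hm3]
  have h1 : (fun y => coord K i (hmap K y)) = (K i).indicator (fun _ => (1 : ℝ)) := by
    ext y
    simp only [coord, hmap, ContinuousMap.coe_mk, decide_eq_true_eq, indicator]
  rw [h1, integral_indicator_const _ (hK1 i).measurableSet, smul_eq_mul, mul_one,
    measureReal_def]
  have h2 := ENNReal.toReal_mono (measure_ne_top lam (K i)) (hK2 i)
  simpa using h2

theorem equivalence : NoNullCover ↔
    ∀ (X : Type) [TopologicalSpace X] [MeasurableSpace X] [BorelSpace X], IsCorson X →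
      ∀ x : X, TightAtDirac X x := by
  refine ⟨fun hN X _ _ _ hX x => positive hN hX x, fun h => ?_⟩
  by_contra hN
  obtain ⟨X, i1, i2, i3, hX, _, x, ν, h1, h2, h3⟩ := negative hN
  have hne : Nonempty I1 := by
    by_contra h
    rw [not_nonempty_iff] at h
    exact not_countable_I1 Set.countable_univ
  obtain ⟨B, hB1, hB2, hB3⟩ := h X hX x (range ν) (by rintro _ ⟨i, rfl⟩; exact h1 i)
    (mem_closure_of_tendsto h2 (Eventually.of_forall fun i => mem_range_self i))
  exact h3 B hB1 hB2 hB3

theorem not_noNullCover_of_ch (hCH : Cardinal.continuum.{0} = Cardinal.aleph 1) :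
    ¬ NoNullCover := by
  intro h
  refine h unitInterval (volume : Measure unitInterval)
    (range fun x : unitInterval => ({x} : Set unitInterval)) ?_ ?_ ?_
  · refine Cardinal.mk_range_le.trans ?_
    rw [← hCH]
    calc Cardinal.mk unitInterval ≤ Cardinal.mk ℝ := Cardinal.mk_subtype_le _
      _ = Cardinal.continuum := Cardinal.mk_real
  · rintro _ ⟨x, rfl⟩
    exact measure_singleton x
  · rw [eq_univ_iff_forall]
    intro x
    exact ⟨{x}, ⟨x, rfl⟩, rfl⟩

end Pool.Agent.Y443.PX
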