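import Pool.Agent.Y443.MSE
import Pool.Agent.Y443.PXF

/-!
Measures with metrizable-like support (MP_5a7e2f_gt), part F: the counterexample from a dense
family of `ℵ₁` sets of positive measure.
-/

open MeasureTheory Set Topology Filter
open scoped ENNReal NNReal CompactlySupported

namespace Pool.Agent.Y443.MS

theorem exists_cover {X I : Type*} [MeasurableSpace X] (lam : Measure X) [IsFiniteMeasure lam]
    (H : I → Set X) (hHm : ∀ ξ, MeasurableSet (H ξ))
    (hdense : ∀ F, MeasurableSet F → 0 < lam F → ∃ ξ, 0 < lam (H ξ) ∧ H ξ ⊆ F)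
    (E : Set X) (hE : MeasurableSet E) :
    ∃ C : Set I, C.Countable ∧ (∀ ξ ∈ C, H ξ ⊆ E) ∧ lam (E \ ⋃ ξ ∈ C, H ξ) = 0 := by
  let T : Set ℝ≥0∞ := {v | ∃ c : Set I, c.Countable ∧ (∀ ξ ∈ c, H ξ ⊆ E) ∧
    v = lam (⋃ ξ ∈ c, H ξ)}
  have hatt : ∃ c : Set I, c.Countable ∧ (∀ ξ ∈ c, H ξ ⊆ E) ∧
      lam (⋃ ξ ∈ c, H ξ) = sSup T := by
    have hne : T.Nonempty := ⟨_, ∅, countable_empty, by simp, rfl⟩
    obtain ⟨u, _, hu2, hu3⟩ := exists_seq_tendsto_sSup hne (OrderTop.bddAbove _)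
    choose c hc1 hc2 hc3 using hu3
    have h1 : ∀ ξ ∈ ⋃ n, c n, H ξ ⊆ E := by
      intro ξ hξ
      obtain ⟨n, hn⟩ := mem_iUnion.1 hξ
      exact hc2 n ξ hn
    refine ⟨⋃ n, c n, countable_iUnion hc1, h1, le_antisymm ?_ ?_⟩
    · exact le_sSup ⟨_, countable_iUnion hc1, h1, rfl⟩
    · refine le_of_tendsto' hu2 fun n => ?_
      rw [hc3]
      exact measure_mono (biUnion_subset_biUnion_left (subset_iUnion c n))
  obtain ⟨c, hc1, hc2, hc3⟩ := hatt
  refine ⟨c, hc1, hc2, ?_⟩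
  by_contra h
  have hm : MeasurableSet (⋃ ξ ∈ c, H ξ) := MeasurableSet.biUnion hc1 fun ξ _ => hHm ξ
  obtain ⟨ξ, hξ1, hξ2⟩ := hdense _ (MeasurableSet.diff hE hm) (pos_iff_ne_zero.2 h)
  have h1 : lam (⋃ ζ ∈ insert ξ c, H ζ) ≤ lam (⋃ ζ ∈ c, H ζ) := by
    rw [hc3]
    refine le_sSup ⟨insert ξ c, hc1.insert ξ, ?_, rfl⟩
    rintro ζ (rfl | hζ)
    · exact hξ2.trans sdiff_subset
    · exact hc2 ζ hζ
  have h2 : lam (⋃ ζ ∈ insert ξ c, H ζ) = lam (H ξ) + lam (⋃ ζ ∈ c, H ζ) := by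
    rw [biUnion_insert]
    refine measure_union (Set.disjoint_left.2 fun x hx hx' => (hξ2 hx).2 hx') hm
  rw [h2] at h1
  have h3 : lam (H ξ) + lam (⋃ ζ ∈ c, H ζ) ≤ 0 + lam (⋃ ζ ∈ c, H ζ) := by rwa [zero_add]
  have h4 := (ENNReal.add_le_add_iff_right (measure_ne_top lam _)).1 h3
  exact absurd hξ1 (not_lt.2 h4)

/-- There are `ℵ₁` Borel subsets of `[0,1]` of positive measure such that every Borel set of
positive measure contains one of them (equivalently, the cofinality of the ideal of Lebesgue null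
sets is `ℵ₁`). -/
def SmallDense : Prop :=
  ∃ 𝓗 : Set (Set unitInterval), Cardinal.mk 𝓗 ≤ Cardinal.aleph 1 ∧
    (∀ H ∈ 𝓗, MeasurableSet H ∧ 0 < (volume : Measure unitInterval) H) ∧
    ∀ F : Set unitInterval, MeasurableSet F → 0 < (volume : Measure unitInterval) F →
      ∃ H ∈ 𝓗, H ⊆ F

theorem smallDense_of_ch (hCH : Cardinal.continuum.{0} = Cardinal.aleph 1) : SmallDense := by
  refine ⟨{H | MeasurableSet H ∧ 0 < (volume : Measure unitInterval) H}, ?_, fun H hH => hH,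
    fun F h1 h2 => ⟨F, ⟨h1, h2⟩, Subset.rfl⟩⟩
  obtain ⟨s, hs1, hs2⟩ := (inferInstance : MeasurableSpace.CountablyGenerated unitInterval)
  have h1 : Cardinal.mk s ≤ Cardinal.continuum :=
    (Cardinal.le_aleph0_iff_set_countable.2 hs1).trans Cardinal.aleph0_le_continuum
  have h2 := MeasurableSpace.cardinal_measurableSet_le_continuum h1
  rw [← hs2] at h2
  rw [← hCH]
  refine le_trans (Cardinal.mk_le_mk_of_subset (t := {H | MeasurableSet H}) fun H hH => hH.1) h2

/-- The counterexample. -/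
theorem counterexample (h : SmallDense) :
    ∃ (S : Type) (_ : TopologicalSpace S) (_ : CompactSpace S) (_ : T2Space S)
      (_ : MeasurableSpace S) (_ : BorelSpace S),
      (∀ (A : Set {μ : ProbabilityMeasure S // (μ : Measure S).Regular}) x,
        x ∈ closure A → ∃ B ⊆ A, B.Countable ∧ x ∈ closure B) ∧
      ∃ μ : Measure S, IsProbabilityMeasure μ ∧ μ.Regular ∧
        ¬ ∃ A : ℕ → Finset (Set S), (∀ i, ∀ K ∈ A i, IsCompact K) ∧
          (∀ i, ((A i : Set (Set S))).PairwiseDisjoint id) ∧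
          ∀ U : Set (Set S), (∀ u ∈ U, IsOpen u) → ⋃₀ U = Set.univ → ∀ ε : ENNReal, 0 < ε →
            ∃ i, (∀ K ∈ A i, ∃ u ∈ U, K ⊆ u) ∧
              μ (Set.univ \ ⋃₀ ((A i : Set (Set S)))) < ε := by
  classical
  obtain ⟨𝓗, h1, h2, h3⟩ := h
  have hnc : ¬ Countable unitInterval := by
    intro hc
    have : Cardinal.mk unitInterval ≤ Cardinal.aleph0 := Cardinal.mk_le_aleph0
    have h4 : Cardinal.mk unitInterval = Cardinal.continuum :=
      Cardinal.mk_Icc_real (by norm_num)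
    rw [h4] at this
    exact absurd this (not_le.2 Cardinal.aleph0_lt_continuum)
  let e : unitInterval ≃ᵐ (ℕ → Bool) := PolishSpace.measurableEquivNatBoolOfNotCountable hnc
  let lam : Measure (ℕ → Bool) := (volume : Measure unitInterval).map e
  have hprob : IsProbabilityMeasure lam :=
    Measure.isProbabilityMeasure_map e.measurable.aemeasurable
  have hna : ∀ x, lam {x} = 0 := by
    intro x
    rw [Measure.map_apply e.measurable (measurableSet_singleton x)]
    have : (e ⁻¹' {x} : Set unitInterval) = {e.symm x} := by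
      ext y
      simp only [mem_preimage, mem_singleton_iff]
      exact ⟨fun h => by rw [← h, e.symm_apply_apply], fun h => by rw [h, e.apply_symm_apply]⟩
    rw [this]
    exact measure_singleton _
  -- enumeration
  have hne : 𝓗.Nonempty := by
    obtain ⟨H, hH, _⟩ := h3 univ MeasurableSet.univ (by rw [measure_univ]; norm_num)
    exact ⟨H, hH⟩
  have hsurj : ∃ f : PX.I1 → 𝓗, Function.Surjective f := by
    have hc : Cardinal.mk 𝓗 ≤ Cardinal.mk PX.I1 := by
      rw [Cardinal.mk_ord_toType]; exact h1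
    obtain ⟨g⟩ := Cardinal.le_def _ _ |>.1 hc
    have : Nonempty 𝓗 := hne.to_subtype
    exact ⟨Function.invFun g, Function.invFun_surjective g.injective⟩
  obtain ⟨f, hf⟩ := hsurj
  let H : PX.I1 → Set (ℕ → Bool) := fun ξ => e.symm ⁻¹' (f ξ).1
  have hHm : ∀ ξ, MeasurableSet (H ξ) := fun ξ => e.symm.measurable (h2 _ (f ξ).2).1
  have hlamH : ∀ ξ, lam (H ξ) = volume (f ξ).1 := by
    intro ξ
    rw [Measure.map_apply e.measurable (hHm ξ)]
    congr 1
    ext y
    simp [H]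
  have hdense : ∀ F, MeasurableSet F → 0 < lam F → ∃ ξ, 0 < lam (H ξ) ∧ H ξ ⊆ F := by
    intro F hF hpos
    rw [Measure.map_apply e.measurable hF] at hpos
    obtain ⟨H', hH', hsub⟩ := h3 (e ⁻¹' F) (e.measurable hF) hpos
    obtain ⟨ξ, hξ⟩ := hf ⟨H', hH'⟩
    refine ⟨ξ, ?_, ?_⟩
    · rw [hlamH, hξ]
      exact (h2 H' hH').2
    · intro x hx
      have hx' : e.symm x ∈ H' := by
        have : e.symm x ∈ (f ξ).1 := hx
        rwa [hξ] at this
      have := hsub hx'
      simpa using this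
  have hIio : ∀ i : PX.I1, (Iio i).Countable := fun i =>
    (PX.countable_Iic_I1 i).mono Iio_subset_Iic_self
  have hE : ∀ b : PX.I1, ∃ E : ℕ → Set (ℕ → Bool), (∀ n, MeasurableSet (E n)) ∧
      ∀ ξ < b, ∃ n, E n = H ξ := by
    intro b
    have hc : (insert ∅ (H '' Iio b)).Countable := ((hIio b).image H).insert ∅
    obtain ⟨E, hE⟩ := hc.exists_eq_range (insert_nonempty _ _)
    refine ⟨E, fun n => ?_, fun ξ hξ => ?_⟩
    · have : E n ∈ insert ∅ (H '' Iio b) := by rw [hE]; exact mem_range_self n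
      rcases this with h | ⟨ξ, _, h⟩
      · rw [h]; exact MeasurableSet.empty
      · rw [← h]; exact hHm ξ
    · have : H ξ ∈ insert ∅ (H '' Iio b) := Or.inr ⟨ξ, hξ, rfl⟩
      rw [hE] at this
      exact this
  choose E hE1 hE2 using hE
  obtain ⟨S⟩ := exists_seq hIio lam hna E hE1
  have hup : ∀ C : Set PX.I1, C.Countable → ∃ b, ∀ c ∈ C, c < b := by
    intro C hC
    by_contra h
    push Not at h
    refine PX.not_countable_I1 ((hC.biUnion fun c _ => PX.countable_Iic_I1 c).mono fun i _ => ?_)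
    obtain ⟨c, hc, hlt⟩ := h i
    exact mem_biUnion hc (show i ∈ Iic c from hlt)
  let _ : MeasurableSpace S.thin.K := borel _
  have : BorelSpace S.thin.K := ⟨rfl⟩
  refine ⟨S.thin.K, inferInstance, inferInstance, inferInstance, inferInstance, inferInstance,
    ?_, ?_⟩
  · intro A x hx
    exact S.thin.tight PX.countable_Iic_I1 PX.not_countable_I1 A x hx
  · let _ : MeasurableSpace S.K := borel _
    have : BorelSpace S.K := ⟨rfl⟩
    obtain ⟨m, hm1, hm2, hm3⟩ := S.exists_mu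
    exact ⟨m, hm2, hm1, S.no_support H (exists_cover lam H hHm hdense) hE2 hup m hm3⟩

end Pool.Agent.Y443.MS
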