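import Mathlib

/-!
Tightness of `P(X)` at Dirac measures (MP_aebb62_gt), part A: from a Radon probability space
covered by `ℵ₁` null sets to a Corson compact space of subsets of an `ω₁`-like order and a measure
on it all of whose coordinates have measure at least one half.
-/

open MeasureTheory Set Topology Filter
open scoped ENNReal NNReal BoundedContinuousFunction CompactlySupported

namespace Pool.Agent.Y443.PX

section Kfam

variable {Y : Type*} [TopologicalSpace Y] [CompactSpace Y] [T2Space Y] [MeasurableSpace Y]
  [BorelSpace Y] (lam : Measure Y) [IsProbabilityMeasure lam] [lam.Regular]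
  {I : Type*} [LinearOrder I]

/-- A point-countable family of closed sets of measure at least `1/2`. -/
theorem exists_K (hI : ∀ i : I, (Iic i).Countable) (N : I → Set Y) (hN : ∀ i, lam (N i) = 0)
    (hcov : ∀ y, ∃ i, y ∈ N i) :
    ∃ K : I → Set Y, (∀ i, IsClosed (K i)) ∧ (∀ i, 1 / 2 ≤ lam (K i)) ∧
      ∀ y, {i | y ∈ K i}.Countable := by
  have key : ∀ i : I, ∃ K : Set Y, IsClosed K ∧ 1 / 2 ≤ lam K ∧ ∀ j ≤ i, Disjoint K (N j) := by
    intro i
    have hnull : lam (⋃ j ∈ Iic i, N j) = 0 :=
      (measure_biUnion_null_iff (hI i)).2 fun j _ => hN j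
    set Z := toMeasurable lam (⋃ j ∈ Iic i, N j) with hZ
    have hZ0 : lam Z = 0 := by rw [hZ, measure_toMeasurable, hnull]
    have hZm : MeasurableSet Z := measurableSet_toMeasurable _ _
    have h1 : lam Zᶜ = 1 := by
      rw [prob_compl_eq_one_sub hZm, hZ0, tsub_zero]
    have hlt : (1 / 2 : ℝ≥0∞) < lam Zᶜ := by
      rw [h1]
      exact ENNReal.half_lt_self one_ne_zero ENNReal.one_ne_top
    obtain ⟨K, hKsub, hKc, hK⟩ := hZm.compl.exists_lt_isCompact_of_ne_top (measure_ne_top _ _) hlt
    refine ⟨K, hKc.isClosed, hK.le, fun j hj => ?_⟩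
    rw [Set.disjoint_left]
    intro y hy hyN
    exact hKsub hy (subset_toMeasurable _ _ (mem_biUnion (show j ∈ Iic i from hj) hyN))
  choose K hK1 hK2 hK3 using key
  refine ⟨K, hK1, hK2, fun y => ?_⟩
  obtain ⟨j, hj⟩ := hcov y
  refine (hI j).mono fun i hi => ?_
  by_contra hij
  have hji : j ≤ i := (not_le.1 hij).le
  exact Set.disjoint_left.1 (hK3 i j hji) hi hj

end Kfam

section Space

variable {I Y : Type*}

/-- The adequate family of all sets of indices whose members have the finite intersection
property. -/
def Fam (K : I → Set Y) : Set (I → Bool) :=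
  {a | ∀ F : Finset I, (∀ i ∈ F, a i = true) → (⋂ i ∈ F, K i).Nonempty}

theorem isClosed_Fam (K : I → Set Y) : IsClosed (Fam K) := by
  have : Fam K = ⋂ F : Finset I, {a | (∀ i ∈ F, a i = true) → (⋂ i ∈ F, K i).Nonempty} := by
    ext a; simp [Fam]
  rw [this]
  refine isClosed_iInter fun F => ?_
  by_cases h : (⋂ i ∈ F, K i).Nonempty
  · have : {a : I → Bool | (∀ i ∈ F, a i = true) → (⋂ i ∈ F, K i).Nonempty} = univ := by
      ext a; simp [h]
    rw [this]; exact isClosed_univ
  · have : {a : I → Bool | (∀ i ∈ F, a i = true) → (⋂ i ∈ F, K i).Nonempty} =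
        ⋃ i ∈ F, {a | a i = false} := by
      ext a
      simp only [h, imp_false, mem_ofPred_eq, not_forall, mem_iUnion, exists_prop,
        Bool.not_eq_true]
    rw [this]
    refine Set.Finite.isClosed_biUnion F.finite_toSet fun i _ => ?_
    exact isClosed_eq (continuous_apply i) continuous_const

instance (K : I → Set Y) : CompactSpace (Fam K) :=
  isCompact_iff_compactSpace.1 (isClosed_Fam K).isCompact

theorem exists_common [TopologicalSpace Y] [CompactSpace Y] {K : I → Set Y}
    (hK : ∀ i, IsClosed (K i)) {a : I → Bool} (ha : a ∈ Fam K) :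
    ∃ y, ∀ i, a i = true → y ∈ K i := by
  have := isCompact_univ.inter_iInter_nonempty (fun i : {i // a i = true} => K i)
    (fun i => hK i) (fun u => by
      have h := ha (u.map ⟨Subtype.val, Subtype.val_injective⟩) (by
        intro i hi
        simp only [Finset.mem_map, Function.Embedding.coeFn_mk] at hi
        obtain ⟨j, _, rfl⟩ := hi
        exact j.2)
      obtain ⟨y, hy⟩ := h
      refine ⟨y, mem_univ _, ?_⟩
      simp only [mem_iInter] at hy ⊢
      intro i hi
      exact hy i (by
        simp only [Finset.mem_map, Function.Embedding.coeFn_mk]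
        exact ⟨i, hi, rfl⟩))
  obtain ⟨y, _, hy⟩ := this
  simp only [mem_iInter] at hy
  exact ⟨y, fun i hi => hy ⟨i, hi⟩⟩

/-- Restriction to a final segment (more generally to any set). -/
theorem Fam_mono {K : I → Set Y} {a b : I → Bool} (ha : a ∈ Fam K)
    (hb : ∀ i, b i = true → a i = true) : b ∈ Fam K :=
  fun F hF => ha F fun i hi => hb i (hF i hi)

open Classical in
/-- The restriction map. -/
noncomputable def restr (K : I → Set Y) (T : Set I) (a : Fam K) : Fam K :=
  ⟨fun i => if i ∈ T then a.1 i else false, Fam_mono a.2 (by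
    intro i hi
    by_cases h : i ∈ T
    · simpa [h] using hi
    · simp [h] at hi)⟩

theorem continuous_restr (K : I → Set Y) (T : Set I) : Continuous (restr K T) := by
  refine Continuous.subtype_mk ?_ _
  refine continuous_pi fun i => ?_
  by_cases h : i ∈ T
  · simp only [h, if_true]
    exact (continuous_apply i).comp continuous_subtype_val
  · simp only [h, if_false]
    exact continuous_const

open Classical in
/-- The map from the base space. -/
noncomputable def hmap (K : I → Set Y) (y : Y) : Fam K :=
  ⟨fun i => decide (y ∈ K i), by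
    intro F hF
    refine ⟨y, ?_⟩
    simp only [mem_iInter]
    intro i hi
    exact of_decide_eq_true (hF i hi)⟩

/-- The empty set as a point. -/
noncomputable def zero (K : I → Set Y) (hne : Nonempty Y) : Fam K :=
  ⟨fun _ => false, by
    intro F hF
    obtain ⟨y⟩ := hne
    refine ⟨y, ?_⟩
    simp only [mem_iInter]
    intro i hi
    exact absurd (hF i hi) (by simp)⟩

/-- Coordinate functions. -/
def coord (K : I → Set Y) (i : I) : C(Fam K, ℝ) where
  toFun a := if a.1 i = true then 1 else 0
  continuous_toFun := by
    have h1 : Continuous fun b : Bool => (if b = true then (1 : ℝ) else 0) :=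
      continuous_of_discreteTopology
    exact h1.comp ((continuous_apply i).comp continuous_subtype_val)

theorem measurable_comp_hmap [TopologicalSpace Y] [MeasurableSpace Y] [BorelSpace Y]
    {K : I → Set Y} (hK : ∀ i, IsClosed (K i)) (f : C(Fam K, ℝ)) :
    Measurable fun y => f (hmap K y) := by
  classical
  let A : Subalgebra ℝ C(Fam K, ℝ) :=
    { carrier := {f | Measurable fun y => f (hmap K y)}
      mul_mem' := fun {a b} ha hb => by
        exact Measurable.mul (f := fun y => a (hmap K y)) (g := fun y => b (hmap K y)) ha hb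
      add_mem' := fun {a b} ha hb => by
        exact Measurable.add (f := fun y => a (hmap K y)) (g := fun y => b (hmap K y)) ha hb
      algebraMap_mem' := fun r => by
        simp }
  have hsep : A.SeparatesPoints := by
    intro a b hab
    have : ∃ i, a.1 i ≠ b.1 i := by
      by_contra h
      push Not at h
      exact hab (Subtype.ext (funext h))
    obtain ⟨i, hi⟩ := this
    refine ⟨coord K i, ⟨coord K i, ?_, rfl⟩, ?_⟩
    · show Measurable fun y => (coord K i) (hmap K y)
      have : (fun y => (coord K i) (hmap K y)) = (K i).indicator (fun _ => (1 : ℝ)) := by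
        ext y
        simp only [coord, hmap, ContinuousMap.coe_mk, decide_eq_true_eq, indicator]
      rw [this]
      exact measurable_const.indicator (hK i).measurableSet
    · simp only [coord, ContinuousMap.coe_mk]
      cases ha : a.1 i <;> cases hb : b.1 i <;> simp_all
  have htop := ContinuousMap.subalgebra_topologicalClosure_eq_top_of_separatesPoints A hsep
  have hf : f ∈ A.topologicalClosure := by rw [htop]; exact Algebra.mem_top
  have hf' : f ∈ closure (A : Set C(Fam K, ℝ)) := hf
  obtain ⟨u, hu, hlim⟩ := mem_closure_iff_seq_limit.1 hf'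
  refine measurable_of_tendsto_metrizable (f := fun n y => u n (hmap K y)) (fun n => hu n) ?_
  rw [tendsto_pi_nhds]
  intro y
  exact ((continuous_eval_const (hmap K y)).tendsto f).comp hlim

end Space

end Pool.Agent.Y443.PX
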