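import Pool.Agent.Y443.PXA

/-!
Tightness of `P(X)` at Dirac measures (MP_aebb62_gt), part B: the measure and its restrictions.
-/

open MeasureTheory Set Topology Filter
open scoped ENNReal NNReal BoundedContinuousFunction CompactlySupported

namespace Pool.Agent.Y443.PX

section Riesz

variable {Y : Type*} [TopologicalSpace Y] [MeasurableSpace Y] [BorelSpace Y]
  (lam : Measure Y) [IsProbabilityMeasure lam] {I : Type*} (K : I → Set Y)
  [MeasurableSpace (Fam K)] [BorelSpace (Fam K)]

theorem integrable_comp_hmap (hK : ∀ i, IsClosed (K i)) (f : C(Fam K, ℝ)) :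
    Integrable (fun y => f (hmap K y)) lam :=
  Integrable.of_bound (measurable_comp_hmap hK f).aestronglyMeasurable ‖f‖
    (Eventually.of_forall fun y => f.norm_coe_le_norm (hmap K y))

theorem exists_measure (hK : ∀ i, IsClosed (K i)) :
    ∃ m : Measure (Fam K), m.Regular ∧ IsProbabilityMeasure m ∧
      ∀ f : C(Fam K, ℝ), ∫ a, f a ∂m = ∫ y, f (hmap K y) ∂lam := by
  have hint : ∀ g : C_c(Fam K, ℝ), Integrable (fun y => g (hmap K y)) lam := fun g =>
    integrable_comp_hmap lam K hK g.toContinuousMap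
  let Λ : C_c(Fam K, ℝ) →ₚ[ℝ] ℝ :=
  { toFun g := ∫ y, g (hmap K y) ∂lam
    map_add' g g' := integral_add (hint g) (hint g')
    map_smul' c g := integral_const_mul c _
    monotone' g g' hgg' := integral_mono (hint g) (hint g') fun y => hgg' _ }
  have hf : ∀ f : C(Fam K, ℝ),
      ∫ a, f a ∂(RealRMK.rieszMeasure Λ) = ∫ y, f (hmap K y) ∂lam := by
    intro f
    let g' : C_c(Fam K, ℝ) :=
      { toFun := f
        hasCompactSupport' := HasCompactSupport.of_compactSpace _ }
    exact RealRMK.integral_rieszMeasure Λ g'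
  refine ⟨RealRMK.rieszMeasure Λ, inferInstance, ?_, hf⟩
  have h1 := hf (ContinuousMap.const _ 1)
  simp only [ContinuousMap.const_apply, integral_const, smul_eq_mul, mul_one,
    probReal_univ] at h1
  constructor
  have h2 : (RealRMK.rieszMeasure Λ).real univ = 1 := h1
  rw [measureReal_def] at h2
  have h3 := congrArg ENNReal.ofReal h2
  rwa [ENNReal.ofReal_toReal (measure_ne_top _ _), ENNReal.ofReal_one] at h3

end Riesz

section Main

variable {Y : Type*} [TopologicalSpace Y] [CompactSpace Y] [T2Space Y] [MeasurableSpace Y]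
  [BorelSpace Y] (lam : Measure Y) [IsProbabilityMeasure lam]
  {I : Type*} [LinearOrder I] (K : I → Set Y)
  [MeasurableSpace (Fam K)] [BorelSpace (Fam K)]

theorem exists_upper (hI : ∀ i : I, (Iic i).Countable) (hunc : ¬ (univ : Set I).Countable)
    (C : Set I) (hC : C.Countable) : ∃ γ, ∀ c ∈ C, c ≤ γ := by
  by_contra h
  push Not at h
  refine hunc ((hC.biUnion fun c _ => hI c).mono fun i _ => ?_)
  obtain ⟨c, hc, hlt⟩ := h i
  exact mem_biUnion hc hlt.le

/-- The Dirac measure as a probability measure. -/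
noncomputable def diracP {X : Type*} [MeasurableSpace X] (x : X) : ProbabilityMeasure X :=
  ⟨Measure.dirac x, inferInstance⟩

/-- The restricted measures. -/
noncomputable def nu (m : Measure (Fam K)) [IsProbabilityMeasure m] (i : I) :
    ProbabilityMeasure (Fam K) :=
  ⟨m.map (restr K (Ici i)),
    Measure.isProbabilityMeasure_map (continuous_restr K (Ici i)).measurable.aemeasurable⟩

theorem integral_nu (m : Measure (Fam K)) [IsProbabilityMeasure m] (i : I)
    (f : C(Fam K, ℝ)) :
    ∫ a, f a ∂(nu K m i : Measure (Fam K)) = ∫ a, f (restr K (Ici i) a) ∂m := by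
  show ∫ a, f a ∂(m.map (restr K (Ici i))) = _
  rw [integral_map (continuous_restr K (Ici i)).measurable.aemeasurable
    f.continuous.aestronglyMeasurable]

theorem tendsto_nu (hI : ∀ i : I, (Iic i).Countable) (hunc : ¬ (univ : Set I).Countable)
    (hY : Nonempty Y) (m : Measure (Fam K)) [IsProbabilityMeasure m] :
    Tendsto (nu K m) atTop
      (𝓝 (diracP (zero K hY))) := by
  have hgt : ∀ k : I, ∀ᶠ i in atTop, k < i := by
    intro k
    have : ∃ j, k < j := by
      by_contra h
      push Not at h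
      exact hunc ((hI k).mono fun i _ => h i)
    obtain ⟨j, hj⟩ := this
    filter_upwards [eventually_ge_atTop j] with i hi using hj.trans_le hi
  have hT : Tendsto (fun p : I × Fam K => restr K (Ici p.1) p.2) (atTop ×ˢ ⊤)
      (𝓝 (zero K hY)) := by
    rw [tendsto_subtype_rng, tendsto_pi_nhds]
    intro k
    refine tendsto_nhds_of_eventually_eq ?_
    have : ∀ᶠ p : I × Fam K in atTop ×ˢ ⊤, k < p.1 := (hgt k).prod_inl _
    filter_upwards [this] with p hp
    have : ¬ (p.1 ≤ k) := not_le.2 hp
    simp [restr, zero, this]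
  rw [ProbabilityMeasure.tendsto_iff_forall_integral_tendsto]
  intro f
  have e1 : ∀ i, ∫ a, f a ∂(nu K m i : Measure (Fam K)) =
      ∫ a, f (restr K (Ici i) a) ∂m := fun i => integral_nu K m i f.toContinuousMap
  have e2 : ∫ a, f a ∂((diracP (zero K hY)) : Measure (Fam K)) = f (zero K hY) := by
    show ∫ a, f a ∂(Measure.dirac (zero K hY)) = _
    rw [integral_dirac]
  rw [e2]
  simp only [e1]
  rw [Metric.tendsto_nhds]
  intro ε hε
  have h1 : ∀ᶠ p : I × Fam K in atTop ×ˢ ⊤,
      dist (f (restr K (Ici p.1) p.2)) (f (zero K hY)) < ε / 2 :=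
    (Metric.tendsto_nhds.1 ((f.continuous.tendsto _).comp hT)) (ε / 2) (by linarith)
  obtain ⟨P, hP, Q, hQ, hPQ⟩ := eventually_prod_iff.1 h1
  have hQ' : ∀ a, Q a := Filter.eventually_top.1 hQ
  filter_upwards [hP] with i hi
  have h2 : ∀ a, ‖f (restr K (Ici i) a) - f (zero K hY)‖ ≤ ε / 2 := fun a => by
    have := hPQ hi (hQ' a)
    rw [Real.dist_eq] at this
    exact this.le
  have h3 : Integrable (fun a => f (restr K (Ici i) a)) m :=
    Integrable.of_bound ((f.continuous.comp (continuous_restr K (Ici i))).aestronglyMeasurable)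
      ‖f‖ (Eventually.of_forall fun a => f.norm_coe_le_norm _)
  rw [Real.dist_eq]
  have h4 : ∫ a, f (restr K (Ici i) a) ∂m - f (zero K hY) =
      ∫ a, (f (restr K (Ici i) a) - f (zero K hY)) ∂m := by
    rw [integral_sub h3 (integrable_const _)]
    simp
  rw [h4]
  have h5 := norm_integral_le_of_norm_le_const (μ := m)
    (Eventually.of_forall h2 : ∀ᵐ a ∂m, ‖f (restr K (Ici i) a) - f (zero K hY)‖ ≤ ε / 2)
  simp only [probReal_univ, mul_one] at h5
  rw [Real.norm_eq_abs] at h5
  linarith

theorem not_mem_closure (hI : ∀ i : I, (Iic i).Countable) (hunc : ¬ (univ : Set I).Countable)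
    (hY : Nonempty Y) (m : Measure (Fam K)) [IsProbabilityMeasure m]
    (hm : ∀ i, 1 / 2 ≤ ∫ a, coord K i a ∂m)
    (B : Set (ProbabilityMeasure (Fam K))) (hB : B ⊆ range (nu K m)) (hBc : B.Countable) :
    diracP (zero K hY) ∉ closure B := by
  have hne : Nonempty I := by
    by_contra h
    rw [not_nonempty_iff] at h
    exact hunc (Set.countable_univ)
  have : ∀ b ∈ B, ∃ i, nu K m i = b := fun b hb => hB hb
  choose! g hg using this
  obtain ⟨γ, hγ⟩ := exists_upper hI hunc (g '' B) (hBc.image g)
  have hcl : IsClosed {μ : ProbabilityMeasure (Fam K) |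
      1 / 2 ≤ ∫ a, coord K γ a ∂(μ : Measure (Fam K))} :=
    isClosed_le continuous_const
      (ProbabilityMeasure.continuous_integral_continuousMap (coord K γ))
  have hsub : B ⊆ {μ : ProbabilityMeasure (Fam K) |
      1 / 2 ≤ ∫ a, coord K γ a ∂(μ : Measure (Fam K))} := by
    intro b hb
    have h1 := hγ (g b) (mem_image_of_mem g hb)
    show 1 / 2 ≤ ∫ a, coord K γ a ∂(b : Measure (Fam K))
    rw [← hg b hb, integral_nu]
    have : ∀ a : Fam K, coord K γ (restr K (Ici (g b)) a) = coord K γ a := by
      intro a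
      have : γ ∈ Ici (g b) := h1
      simp [coord, restr, h1]
    simp only [this]
    exact hm γ
  intro hmem
  have h2 := hcl.closure_subset_iff.2 hsub hmem
  have h3 : ∫ a, coord K γ a ∂((diracP (zero K hY)) : Measure (Fam K)) = 0 := by
    show ∫ a, coord K γ a ∂(Measure.dirac (zero K hY)) = _
    rw [integral_dirac]
    simp [coord, zero]
  have h4 : (1 : ℝ) / 2 ≤ 0 := by
    have := h2
    simp only [mem_ofPred_eq] at this
    rw [h3] at this
    exact this
  norm_num at h4

end Main

end Pool.Agent.Y443.PX
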