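import Pool.Agent.Y443.PXB

/-!
Tightness of `P(X)` at Dirac measures (MP_aebb62_gt), part C: Corson compact spaces, countable
tightness, and the positive direction.
-/

open MeasureTheory Set Topology Filter
open scoped ENNReal NNReal BoundedContinuousFunction CompactlySupported

namespace Pool.Agent.Y443.PX

/-- Closing off a countable set under a countable-set-valued operation on finite subsets. -/
theorem exists_closed {J : Type*} (C₀ : Set J) (h₀ : C₀.Countable) (g : Finset J → Set J)
    (hg : ∀ F, (g F).Countable) :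
    ∃ C : Set J, C₀ ⊆ C ∧ C.Countable ∧ ∀ F : Finset J, ↑F ⊆ C → g F ⊆ C := by
  classical
  let step : Set J → Set J := fun D => D ∪ ⋃ F ∈ {F : Finset J | (↑F : Set J) ⊆ D}, g F
  have hfin : ∀ D : Set J, D.Countable → {F : Finset J | (↑F : Set J) ⊆ D}.Countable := by
    intro D hD
    have h1 := Set.countable_ofPred_finite_subset hD
    refine Set.MapsTo.countable_of_injOn (f := fun F : Finset J => (↑F : Set J)) (t := _)
      (fun F hF => ?_) (Finset.coe_injective.injOn) h1
    exact ⟨F.finite_toSet, hF⟩
  have hstep : ∀ D : Set J, D.Countable → (step D).Countable := by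
    intro D hD
    exact hD.union ((hfin D hD).biUnion fun F _ => hg F)
  let C : ℕ → Set J := fun n => step^[n] C₀
  have hC : ∀ n, (C n).Countable := by
    intro n
    induction n with
    | zero => exact h₀
    | succ n ih =>
      show (step^[n + 1] C₀).Countable
      rw [Function.iterate_succ_apply']
      exact hstep _ ih
  have hmono : Monotone C := by
    refine monotone_nat_of_le_succ fun n => ?_
    show step^[n] C₀ ⊆ step^[n + 1] C₀
    rw [Function.iterate_succ_apply']
    exact subset_union_left
  refine ⟨⋃ n, C n, subset_iUnion C 0, countable_iUnion hC, fun F hF => ?_⟩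
  have : ∃ n, (↑F : Set J) ⊆ C n := by
    induction F using Finset.induction_on with
    | empty => exact ⟨0, by simp⟩
    | insert a s _ ih =>
      rw [Finset.coe_insert, insert_subset_iff] at hF
      obtain ⟨n, hn⟩ := ih hF.2
      obtain ⟨k, hk⟩ := mem_iUnion.1 hF.1
      refine ⟨max n k, ?_⟩
      rw [Finset.coe_insert, insert_subset_iff]
      exact ⟨hmono (le_max_right n k) hk, hn.trans (hmono (le_max_left n k))⟩
  obtain ⟨n, hn⟩ := this
  refine subset_trans ?_ (subset_iUnion C (n + 1))
  show g F ⊆ step^[n + 1] C₀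
  rw [Function.iterate_succ_apply']
  refine subset_union_of_subset_right ?_ _
  exact subset_biUnion_of_mem (u := fun F : Finset J => g F) (show F ∈ {F : Finset J | (↑F : Set J) ⊆ C n} from hn)

/-- `X` is a Corson compact space: a compact Hausdorff space homeomorphic to a subspace of a
`Σ`-product of real lines. -/
def IsCorson (X : Type) [TopologicalSpace X] : Prop :=
  CompactSpace X ∧ T2Space X ∧ ∃ (J : Type) (f : X → J → ℝ), IsEmbedding f ∧
    ∀ x, {j | f x j ≠ 0}.Countable

/-- Countable tightness. -/
def CountablyTight (X : Type) [TopologicalSpace X] : Prop :=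
  ∀ (S : Set X) (y : X), y ∈ closure S → ∃ T ⊆ S, T.Countable ∧ y ∈ closure T

/-- The standard neighbourhoods. -/
def nb {X J : Type} (f : X → J → ℝ) (y : X) (F : Finset J) (n : ℕ) : Set X :=
  {x | ∀ j ∈ F, |f x j - f y j| < 1 / ((n : ℝ) + 1)}

theorem isOpen_nb {X J : Type} [TopologicalSpace X] {f : X → J → ℝ} (hf : Continuous f) (y : X)
    (F : Finset J) (n : ℕ) : IsOpen (nb f y F n) := by
  have : nb f y F n = ⋂ j ∈ F, {x | |f x j - f y j| < 1 / ((n : ℝ) + 1)} := by
    ext x; simp [nb]
  rw [this]
  refine isOpen_biInter_finset fun j _ => ?_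
  refine isOpen_lt ?_ continuous_const
  exact (((continuous_apply j).comp hf).sub continuous_const).abs

theorem mem_nb {X J : Type} (f : X → J → ℝ) (y : X) (F : Finset J) (n : ℕ) : y ∈ nb f y F n := by
  intro j _
  simp only [sub_self, abs_zero]
  positivity

theorem tendsto_nb {X J : Type} [TopologicalSpace X] {f : X → J → ℝ} (hf : IsEmbedding f)
    (y : X) {C : Set J} {α : Type*} {l : Filter α} (u : α → X)
    (h1 : ∀ j ∈ C, ∀ ε > 0, ∀ᶠ a in l, |f (u a) j - f y j| < ε)
    (h2 : ∀ j ∉ C, ∀ᶠ a in l, f (u a) j = f y j) : Tendsto u l (𝓝 y) := by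
  rw [hf.isInducing.tendsto_nhds_iff, tendsto_pi_nhds]
  intro j
  by_cases hj : j ∈ C
  · rw [Metric.tendsto_nhds]
    intro ε hε
    simpa [Real.dist_eq] using h1 j hj ε hε
  · exact tendsto_nhds_of_eventually_eq (h2 j hj)

theorem IsCorson.countablyTight {X : Type} [TopologicalSpace X] (h : IsCorson X) :
    CountablyTight X := by
  classical
  obtain ⟨_, _, J, f, hf, hsupp⟩ := h
  intro S y hy
  have hex : ∀ (F : Finset J) (n : ℕ), ∃ x ∈ S, x ∈ nb f y F n := by
    intro F n
    obtain ⟨x, hx1, hx2⟩ := mem_closure_iff.1 hy _ (isOpen_nb hf.continuous y F n) (mem_nb f y F n)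
    exact ⟨x, hx2, hx1⟩
  choose s hsS hs using hex
  obtain ⟨C, hC0, hCc, hCcl⟩ := exists_closed {j | f y j ≠ 0} (hsupp y)
    (fun F => ⋃ n, {j | f (s F n) j ≠ 0}) (fun F => countable_iUnion fun n => hsupp _)
  have hTc : {F : Finset J | (↑F : Set J) ⊆ C}.Countable := by
    have h1 := Set.countable_ofPred_finite_subset hCc
    refine Set.MapsTo.countable_of_injOn (f := fun F : Finset J => (↑F : Set J)) (t := _)
      (fun F hF => ?_) (Finset.coe_injective.injOn) h1
    exact ⟨F.finite_toSet, hF⟩
  refine ⟨⋃ F ∈ {F : Finset J | (↑F : Set J) ⊆ C}, range (s F), ?_, ?_, ?_⟩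
  · refine iUnion₂_subset fun F _ => ?_
    rintro _ ⟨n, rfl⟩
    exact hsS F n
  · exact hTc.biUnion fun F _ => countable_range _
  · have hsub : ∀ F : Finset J, (↑(F.filter (· ∈ C)) : Set J) ⊆ C := by
      intro F j hj
      simp at hj
      exact hj.2
    refine mem_closure_of_tendsto (f := fun p : Finset J × ℕ => s (p.1.filter (· ∈ C)) p.2)
      (b := atTop) ?_ (Eventually.of_forall fun p => ?_)
    · refine tendsto_nb hf y (C := C) _ ?_ ?_
      · intro j hj ε hε
        obtain ⟨n, hn⟩ := exists_nat_one_div_lt hε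
        filter_upwards [eventually_ge_atTop (({j} : Finset J), n)] with p hp
        have hp1 : j ∈ p.1 := hp.1 (Finset.mem_singleton_self j)
        have hp2 : n ≤ p.2 := hp.2
        have h3 := hs (p.1.filter (· ∈ C)) p.2 j (by simp [hp1, hj])
        refine h3.trans_le (le_trans ?_ hn.le)
        have : (n : ℝ) ≤ p.2 := by exact_mod_cast hp2
        gcongr
      · intro j hj
        refine Eventually.of_forall fun p => ?_
        have e1 : f y j = 0 := by
          by_contra h
          exact hj (hC0 h)
        have e2 : f (s (p.1.filter (· ∈ C)) p.2) j = 0 := by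
          by_contra h
          exact hj (hCcl _ (hsub p.1) (mem_iUnion.2 ⟨p.2, h⟩))
        rw [e1, e2]
    · exact mem_biUnion (show p.1.filter (· ∈ C) ∈ {F : Finset J | (↑F : Set J) ⊆ C} from hsub p.1)
        ⟨p.2, rfl⟩

end Pool.Agent.Y443.PX
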