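import Pool.Agent.Y443.PXC

/-!
Tightness of `P(X)` at Dirac measures (MP_aebb62_gt), part D: if no Radon probability space is
covered by `ℵ₁` null sets, then `P(X)` has countable tightness at Dirac measures for Corson `X`.
-/

open MeasureTheory Set Topology Filter
open scoped ENNReal NNReal BoundedContinuousFunction CompactlySupported

namespace Pool.Agent.Y443.PX

/-- The index type. -/
abbrev I1 : Type := (Cardinal.aleph 1).ord.ToType

theorem countable_Iic_I1 (i : I1) : (Iic i).Countable := by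
  have h := Cardinal.mk_Iio_toType_ord_lt i
  have h2 : (Iio i).Countable := by
    rw [Cardinal.countable_iff_lt_aleph_one]; exact h
  rw [← Iio_insert]
  exact h2.insert i

theorem not_countable_I1 : ¬ (univ : Set I1).Countable := by
  intro h
  rw [Cardinal.countable_iff_lt_aleph_one, Cardinal.mk_univ, Cardinal.mk_ord_toType] at h
  exact lt_irrefl _ h

/-- No compact Hausdorff space with a regular Borel probability measure is covered by `ℵ₁`
null sets: Martin's axiom for measure algebras and `ℵ₁` dense sets. -/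
def NoNullCover : Prop :=
  ∀ (Y : Type) [TopologicalSpace Y] [CompactSpace Y] [T2Space Y] [MeasurableSpace Y]
    [BorelSpace Y] (lam : Measure Y) [IsProbabilityMeasure lam] [lam.Regular]
    (𝒩 : Set (Set Y)), Cardinal.mk 𝒩 ≤ Cardinal.aleph 1 → (∀ N ∈ 𝒩, lam N = 0) →
    ⋃₀ 𝒩 ≠ univ

section Ess

variable {X : Type} [TopologicalSpace X] [CompactSpace X] [T2Space X] [MeasurableSpace X]
  [BorelSpace X]

/-- A point-countable `ω₁`-family of closed sets of measure bounded from below yields a null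
cover. -/
theorem null_cover (μ : Measure X) [IsProbabilityMeasure μ] [μ.Regular] (K : I1 → Set X)
    (hK : ∀ i, IsClosed (K i)) (hpc : ∀ x, {i | x ∈ K i}.Countable) (ε : ℝ≥0∞) (hε : ε ≠ 0)
    (hKε : ∀ i, ε ≤ μ (K i)) : ¬ NoNullCover := by
  classical
  let U : Set I1 → Set X := fun c => ⋃ k ∈ c, K k
  have hUm : ∀ c : Set I1, c.Countable → MeasurableSet (U c) := fun c hc =>
    MeasurableSet.biUnion hc fun k _ => (hK k).measurableSet
  have hUmono : ∀ c d : Set I1, c ⊆ d → U c ⊆ U d := fun c d h => biUnion_subset_biUnion_left h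
  let S : I1 → Set ℝ≥0∞ := fun i => {v | ∃ c : Set I1, c.Countable ∧ c ⊆ Ici i ∧ v = μ (U c)}
  have hatt : ∀ i, ∃ c : Set I1, c.Countable ∧ c ⊆ Ici i ∧ μ (U c) = sSup (S i) := by
    intro i
    have hne : (S i).Nonempty := ⟨_, ∅, countable_empty, empty_subset _, rfl⟩
    obtain ⟨u, _, hu2, hu3⟩ := exists_seq_tendsto_sSup hne (OrderTop.bddAbove _)
    choose c hc1 hc2 hc3 using hu3
    refine ⟨⋃ n, c n, countable_iUnion hc1, iUnion_subset hc2, le_antisymm ?_ ?_⟩
    · exact le_sSup ⟨_, countable_iUnion hc1, iUnion_subset hc2, rfl⟩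
    · refine le_of_tendsto' hu2 fun n => ?_
      rw [hc3]
      exact measure_mono (hUmono _ _ (subset_iUnion c n))
  choose c hc1 hc2 hc3 using hatt
  have hanti : ∀ i j, i ≤ j → sSup (S j) ≤ sSup (S i) := by
    intro i j hij
    refine sSup_le_sSup ?_
    rintro _ ⟨d, hd1, hd2, rfl⟩
    exact ⟨d, hd1, hd2.trans (Ici_subset_Ici.2 hij), rfl⟩
  have hne1 : Nonempty I1 := by
    by_contra h
    rw [not_nonempty_iff] at h
    exact not_countable_I1 Set.countable_univ
  obtain ⟨i₀, hi₀⟩ : ∃ i₀, ∀ i, i₀ ≤ i → sSup (S i) = sSup (S i₀) := by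
    have hne : (range fun i => sSup (S i)).Nonempty := range_nonempty _
    obtain ⟨u, _, hu2, hu3⟩ := exists_seq_tendsto_sInf hne (OrderBot.bddBelow _)
    choose j hj using hu3
    obtain ⟨i₀, hi₀⟩ := exists_upper countable_Iic_I1 not_countable_I1 (range j)
      (countable_range j)
    refine ⟨i₀, fun i hi => le_antisymm (hanti _ _ hi) ?_⟩
    have h1 : sSup (S i₀) ≤ sInf (range fun i => sSup (S i)) := by
      refine ge_of_tendsto' hu2 fun n => ?_
      rw [← hj n]
      exact hanti _ _ (hi₀ _ (mem_range_self n))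
    exact h1.trans (sInf_le (mem_range_self i))
  set E := U (c i₀) with hE
  have hEm : MeasurableSet E := hUm _ (hc1 i₀)
  have hE0 : μ E ≠ 0 := by
    have h1 : ε ≤ μ E := by
      rw [hE, hc3]
      refine (hKε i₀).trans (le_sSup ⟨{i₀}, countable_singleton _, by simp, ?_⟩)
      simp [U]
    exact fun h => hε (le_antisymm (h ▸ h1) bot_le)
  have hdiff : ∀ i, i₀ ≤ i → μ (E \ U (c i)) = 0 := by
    intro i hi
    have h1 : μ (E ∪ U (c i)) ≤ μ (U (c i)) := by
      rw [hc3 i, hi₀ i hi]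
      refine le_sSup ⟨c i₀ ∪ c i, (hc1 _).union (hc1 _), union_subset (hc2 _)
        ((hc2 i).trans (Ici_subset_Ici.2 hi)), ?_⟩
      congr 1
      exact (biUnion_union _ _ _).symm
    have h2 : E \ U (c i) = (E ∪ U (c i)) \ U (c i) := by
      rw [union_sdiff_right]
    rw [h2, measure_sdiff subset_union_right (hUm _ (hc1 i)).nullMeasurableSet
      (measure_ne_top _ _)]
    exact tsub_eq_zero_of_le h1
  intro hN
  have hreg : (ProbabilityTheory.cond μ E).Regular := by
    have : (μ.restrict E).Regular := Measure.Regular.restrict_of_measure_ne_top (measure_ne_top _ _)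
    exact Measure.Regular.smul (ENNReal.inv_ne_top.2 hE0)
  have hprob : IsProbabilityMeasure (ProbabilityTheory.cond μ E) :=
    ProbabilityTheory.cond_isProbabilityMeasure hE0
  have := hN X (ProbabilityTheory.cond μ E) (range fun i : I1 => (E ∩ U (c (max i i₀)))ᶜ)
    (by
      refine Cardinal.mk_range_le.trans ?_
      rw [Cardinal.mk_ord_toType])
    (by
      rintro _ ⟨i, rfl⟩
      rw [ProbabilityTheory.cond_apply hEm]
      have : E ∩ (E ∩ U (c (max i i₀)))ᶜ = E \ U (c (max i i₀)) := by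
        ext x; simp only [mem_inter_iff, mem_compl_iff, Set.mem_sdiff]; tauto
      rw [this, hdiff _ (le_max_right _ _), mul_zero])
  apply this
  rw [eq_univ_iff_forall]
  intro x
  by_contra hx
  simp only [mem_sUnion, mem_range, exists_exists_eq_and, mem_compl_iff, mem_inter_iff,
    not_exists, not_not] at hx
  -- `x` lies in unboundedly many `K k`
  obtain ⟨γ, hγ⟩ := exists_upper countable_Iic_I1 not_countable_I1 _ (hpc x)
  have hgt : ∃ j : I1, γ < j := by
    by_contra h
    push Not at h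
    exact not_countable_I1 ((countable_Iic_I1 γ).mono fun i _ => h i)
  obtain ⟨j, hj⟩ := hgt
  have h1 := (hx j).2
  obtain ⟨k, hk1, hk2⟩ := mem_iUnion₂.1 h1
  have h2 : max j i₀ ≤ k := hc2 _ hk1
  have h3 := hγ k hk2
  exact absurd (hj.trans_le ((le_max_left _ _).trans h2)) (not_lt.2 h3)

theorem countable_supp (hN : NoNullCover) (μ : Measure X) [IsProbabilityMeasure μ] [μ.Regular]
    {J : Type} {f : X → J → ℝ} (hf : Continuous f) (hsupp : ∀ x, {j | f x j ≠ 0}.Countable) :
    {j | μ {x | f x j ≠ 0} ≠ 0}.Countable := by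
  by_contra hunc
  have hsub : {j | μ {x | f x j ≠ 0} ≠ 0} ⊆
      ⋃ n : ℕ, {j | (((n : ℝ≥0∞) + 1)⁻¹) ≤ μ {x | 1 / ((n : ℝ) + 1) ≤ |f x j|}} := by
    intro j hj
    have h1 : {x | f x j ≠ 0} = ⋃ n : ℕ, {x | 1 / ((n : ℝ) + 1) ≤ |f x j|} := by
      ext x
      simp only [mem_ofPred_eq, mem_iUnion]
      constructor
      · intro hx
        obtain ⟨n, hn⟩ := exists_nat_one_div_lt (abs_pos.2 hx)
        exact ⟨n, hn.le⟩
      · rintro ⟨n, hn⟩ h0
        rw [h0, abs_zero] at hn
        have : (0 : ℝ) < 1 / ((n : ℝ) + 1) := by positivity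
        linarith
    have h2 : ∃ n : ℕ, μ {x | 1 / ((n : ℝ) + 1) ≤ |f x j|} ≠ 0 := by
      by_contra h
      push Not at h
      apply hj
      rw [h1]
      exact measure_iUnion_null h
    obtain ⟨n, hn⟩ := h2
    obtain ⟨m, hm⟩ := ENNReal.exists_inv_nat_lt hn
    refine mem_iUnion.2 ⟨max n m, ?_⟩
    show (((max n m : ℕ) : ℝ≥0∞) + 1)⁻¹ ≤ μ {x | 1 / (((max n m : ℕ) : ℝ) + 1) ≤ |f x j|}
    calc (((max n m : ℕ) : ℝ≥0∞) + 1)⁻¹ ≤ (m : ℝ≥0∞)⁻¹ := by
          refine ENNReal.inv_le_inv.2 ?_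
          have : (m : ℝ≥0∞) ≤ ((max n m : ℕ) : ℝ≥0∞) := by exact_mod_cast le_max_right n m
          exact this.trans le_self_add
      _ ≤ μ {x | 1 / ((n : ℝ) + 1) ≤ |f x j|} := hm.le
      _ ≤ _ := by
          refine measure_mono fun x hx => ?_
          refine le_trans ?_ (show 1 / ((n : ℝ) + 1) ≤ |f x j| from hx)
          have : (n : ℝ) ≤ ((max n m : ℕ) : ℝ) := by exact_mod_cast le_max_left n m
          gcongr
  have hex : ∃ n : ℕ,
      ¬ {j | (((n : ℝ≥0∞) + 1)⁻¹) ≤ μ {x | 1 / ((n : ℝ) + 1) ≤ |f x j|}}.Countable := by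
    by_contra h
    push Not at h
    exact hunc ((countable_iUnion h).mono hsub)
  obtain ⟨n, hn⟩ := hex
  rw [Cardinal.countable_iff_lt_aleph_one, not_lt] at hn
  have hle : Cardinal.mk I1 ≤ Cardinal.mk {j | (((n : ℝ≥0∞) + 1)⁻¹) ≤
      μ {x | 1 / ((n : ℝ) + 1) ≤ |f x j|}} := by
    rw [Cardinal.mk_ord_toType]; exact hn
  obtain ⟨e⟩ := Cardinal.le_def _ _ |>.1 hle
  refine null_cover μ (fun i => {x | 1 / ((n : ℝ) + 1) ≤ |f x (e i)|}) (fun i => ?_) (fun x => ?_)
    (((n : ℝ≥0∞) + 1)⁻¹) (by simp) (fun i => (e i).2) hN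
  · exact isClosed_le continuous_const (((continuous_apply _).comp hf).abs)
  · refine Set.MapsTo.countable_of_injOn (f := fun i => (e i : J)) (t := {j | f x j ≠ 0})
      (fun i hi => ?_) ?_ (hsupp x)
    · have : 1 / ((n : ℝ) + 1) ≤ |f x (e i)| := hi
      intro h0
      rw [h0, abs_zero] at this
      have h2 : (0 : ℝ) < 1 / ((n : ℝ) + 1) := by positivity
      linarith
    · intro i _ j _ hij
      exact e.injective (Subtype.ext hij)

end Ess

end Pool.Agent.Y443.PX
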