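import Pool.Agent.Y443.PXD

/-!
Tightness of `P(X)` at Dirac measures (MP_aebb62_gt), part E: convergence to Dirac measures and
the two directions.
-/

open MeasureTheory Set Topology Filter
open scoped ENNReal NNReal BoundedContinuousFunction CompactlySupported

namespace Pool.Agent.Y443.PX

section Conv

variable {X : Type} [TopologicalSpace X] [CompactSpace X] [MeasurableSpace X] [BorelSpace X]

theorem tendsto_diracP {α : Type*} {l : Filter α} (y : X) (u : α → ProbabilityMeasure X)
    (h : ∀ G : Set X, IsClosed G → y ∉ G → Tendsto (fun a => (u a : Measure X).real G) l (𝓝 0)) :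
    Tendsto u l (𝓝 (diracP y)) := by
  rw [ProbabilityMeasure.tendsto_iff_forall_integral_tendsto]
  intro g
  have e2 : ∫ a, g a ∂((diracP y : ProbabilityMeasure X) : Measure X) = g y := by
    show ∫ a, g a ∂(Measure.dirac y) = _
    exact integral_dirac' _ _ g.continuous.stronglyMeasurable
  rw [e2, Metric.tendsto_nhds]
  intro ε hε
  set G : Set X := {x | ε / 2 ≤ |g x - g y|} with hG
  have hGc : IsClosed G := isClosed_le continuous_const (g.continuous.sub continuous_const).abs
  have hyG : y ∉ G := by
    simp only [hG, mem_ofPred_eq, sub_self, abs_zero, not_le]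
    linarith
  have h1 := (Metric.tendsto_nhds.1 (h G hGc hyG)) (ε / 2 / (2 * ‖g‖ + 1)) (by positivity)
  filter_upwards [h1] with a ha
  have hint : Integrable (fun x => g x) (u a : Measure X) := g.integrable _
  have h2 : ∫ x, g x ∂(u a : Measure X) - g y = ∫ x, (g x - g y) ∂(u a : Measure X) := by
    rw [integral_sub hint (integrable_const _)]
    simp
  rw [Real.dist_eq, h2]
  have h3 : ∀ x, |g x - g y| ≤ ε / 2 + G.indicator (fun _ => 2 * ‖g‖) x := by
    intro x
    by_cases hx : x ∈ G
    · rw [indicator_of_mem hx]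
      have e3 : |g x| ≤ ‖g‖ := g.norm_coe_le_norm x
      have e4 : |g y| ≤ ‖g‖ := g.norm_coe_le_norm y
      have e5 := abs_sub (g x) (g y)
      linarith
    · rw [indicator_of_notMem hx]
      have : ¬ (ε / 2 ≤ |g x - g y|) := hx
      linarith
  have hintI : Integrable (G.indicator (fun _ => 2 * ‖g‖)) (u a : Measure X) :=
    (integrable_const _).indicator hGc.measurableSet
  have h4 : |∫ x, (g x - g y) ∂(u a : Measure X)| ≤
      ∫ x, (ε / 2 + G.indicator (fun _ => 2 * ‖g‖) x) ∂(u a : Measure X) := by
    refine (abs_integral_le_integral_abs).trans ?_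
    refine integral_mono_of_nonneg (Eventually.of_forall fun x => abs_nonneg _) ?_
      (Eventually.of_forall h3)
    exact (integrable_const _).add hintI
  have h5 : ∫ x, (ε / 2 + G.indicator (fun _ => 2 * ‖g‖) x) ∂(u a : Measure X) =
      ε / 2 + 2 * ‖g‖ * (u a : Measure X).real G := by
    rw [integral_add (integrable_const _) hintI, integral_indicator_const _ hGc.measurableSet]
    simp [mul_comm]
  rw [h5] at h4
  have h6 : (u a : Measure X).real G < ε / 2 / (2 * ‖g‖ + 1) := by
    rw [Real.dist_eq, sub_zero, abs_of_nonneg measureReal_nonneg] at ha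
    exact ha
  have h7 : 2 * ‖g‖ * (u a : Measure X).real G < ε / 2 := by
    have h8 : (2 * ‖g‖ + 1) * (u a : Measure X).real G < ε / 2 := by
      rw [lt_div_iff₀ (by positivity)] at h6
      linarith
    have h9 : 0 ≤ (u a : Measure X).real G := measureReal_nonneg
    linarith
  linarith

end Conv

/-- `P(X)` has countable tightness at the Dirac measure at `x`: here `P(X)` is the set of regular
Borel probability measures. -/
def TightAtDirac (X : Type) [TopologicalSpace X] [MeasurableSpace X] [BorelSpace X] (x : X) :
    Prop :=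
  ∀ A : Set (ProbabilityMeasure X), (∀ μ ∈ A, (μ : Measure X).Regular) →
    diracP x ∈ closure A → ∃ B ⊆ A, B.Countable ∧ diracP x ∈ closure B

theorem positive (hN : NoNullCover) {X : Type} [TopologicalSpace X] [MeasurableSpace X]
    [BorelSpace X] (hX : IsCorson X) (y : X) : TightAtDirac X y := by
  classical
  obtain ⟨_, _, J, f, hf, hsupp⟩ := hX
  intro A hA hy
  have hex : ∀ (F : Finset J) (n : ℕ), ∃ μ ∈ A, (μ : Measure X).real (nb f y F n)ᶜ <
      1 / ((n : ℝ) + 1) := by
    intro F n
    let g : C(X, ℝ) :=
      { toFun := fun x => ∑ j ∈ F, |f x j - f y j| * ((n : ℝ) + 1)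
        continuous_toFun := by
          refine continuous_finsetSum _ fun j _ => ?_
          exact ((((continuous_apply j).comp hf.continuous).sub continuous_const).abs).mul
            continuous_const }
    have hg0 : ∀ x, 0 ≤ g x := fun x => Finset.sum_nonneg fun j _ => by positivity
    have hgy : g y = 0 := by simp [g]
    have hop : IsOpen {μ : ProbabilityMeasure X | ∫ x, g x ∂(μ : Measure X) < 1 / ((n : ℝ) + 1)} :=
      isOpen_lt (ProbabilityMeasure.continuous_integral_continuousMap g) continuous_const
    have hmem : diracP y ∈ {μ : ProbabilityMeasure X |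
        ∫ x, g x ∂(μ : Measure X) < 1 / ((n : ℝ) + 1)} := by
      show ∫ x, g x ∂(Measure.dirac y) < _
      rw [integral_dirac' _ _ g.continuous.stronglyMeasurable, hgy]
      positivity
    obtain ⟨μ, hμ1, hμ2⟩ := mem_closure_iff.1 hy _ hop hmem
    refine ⟨μ, hμ2, lt_of_le_of_lt ?_ hμ1⟩
    have hint : Integrable (fun x => g x) (μ : Measure X) :=
      Integrable.of_bound g.continuous.aestronglyMeasurable ‖g‖
        (Eventually.of_forall fun x => g.norm_coe_le_norm x)
    have h1 := mul_meas_ge_le_integral_of_nonneg (Eventually.of_forall hg0) hint 1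
    rw [one_mul] at h1
    refine le_trans (measureReal_mono (fun x hx => ?_)) h1
    simp only [nb, mem_compl_iff, mem_ofPred_eq, not_forall, not_lt] at hx
    obtain ⟨j, hj, hlt⟩ := hx
    show 1 ≤ ∑ j ∈ F, |f x j - f y j| * ((n : ℝ) + 1)
    have h2 : (1 : ℝ) ≤ |f x j - f y j| * ((n : ℝ) + 1) := by
      rw [div_le_iff₀ (by positivity)] at hlt
      exact hlt
    exact h2.trans (Finset.single_le_sum (f := fun j => |f x j - f y j| * ((n : ℝ) + 1))
      (fun k _ => by positivity) hj)
  choose s hsA hs using hex
  have hcs : ∀ F n, {j | (s F n : Measure X) {x | f x j ≠ 0} ≠ 0}.Countable := by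
    intro F n
    have := hA _ (hsA F n)
    exact countable_supp hN (s F n : Measure X) hf.continuous hsupp
  obtain ⟨C, hC0, hCc, hCcl⟩ := exists_closed {j | f y j ≠ 0} (hsupp y)
    (fun F => ⋃ n, {j | (s F n : Measure X) {x | f x j ≠ 0} ≠ 0})
    (fun F => countable_iUnion fun n => hcs F n)
  have hTc : {F : Finset J | (↑F : Set J) ⊆ C}.Countable := by
    have h1 := Set.countable_ofPred_finite_subset hCc
    refine Set.MapsTo.countable_of_injOn (f := fun F : Finset J => (↑F : Set J)) (t := _)
      (fun F hF => ?_) (Finset.coe_injective.injOn) h1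
    exact ⟨F.finite_toSet, hF⟩
  refine ⟨⋃ F ∈ {F : Finset J | (↑F : Set J) ⊆ C}, range (s F), ?_, ?_, ?_⟩
  · refine iUnion₂_subset fun F _ => ?_
    rintro _ ⟨n, rfl⟩
    exact hsA F n
  · exact hTc.biUnion fun F _ => countable_range _
  · have hsub : ∀ F : Finset J, (↑(F.filter (· ∈ C)) : Set J) ⊆ C := by
      intro F j hj
      simp at hj
      exact hj.2
    refine mem_closure_of_tendsto (f := fun p : Finset J × ℕ => s (p.1.filter (· ∈ C)) p.2)
      (b := atTop) ?_ (Eventually.of_forall fun p => ?_)
    · refine tendsto_diracP y _ fun G hG hyG => ?_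
      -- cover `G`
      have hcov : G ⊆ ⋃ q : J × ℕ, {x | 1 / ((q.2 : ℝ) + 1) < |f x q.1 - f y q.1|} := by
        intro x hx
        have hne : f x ≠ f y := fun h => hyG (hf.injective h ▸ hx)
        obtain ⟨j, hj⟩ := Function.ne_iff.1 hne
        obtain ⟨n, hn⟩ := exists_nat_one_div_lt (abs_pos.2 (sub_ne_zero.2 hj))
        exact mem_iUnion.2 ⟨(j, n), hn⟩
      obtain ⟨t, ht⟩ := hG.isCompact.elim_finite_subcover
        (fun q : J × ℕ => {x | 1 / ((q.2 : ℝ) + 1) < |f x q.1 - f y q.1|})
        (fun q => isOpen_lt continuous_const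
          (((continuous_apply q.1).comp hf.continuous).sub continuous_const).abs) hcov
      have hlim : Tendsto (fun p : Finset J × ℕ => ∑ q ∈ t,
          (s (p.1.filter (· ∈ C)) p.2 : Measure X).real
            {x | 1 / ((q.2 : ℝ) + 1) < |f x q.1 - f y q.1|}) atTop (𝓝 0) := by
        rw [← Finset.sum_const_zero (s := t)]
        refine tendsto_finsetSum _ fun q _ => ?_
        by_cases hq : q.1 ∈ C
        · -- small
          have hz : Tendsto (fun p : Finset J × ℕ => 1 / ((p.2 : ℝ) + 1)) atTop (𝓝 0) :=
            (tendsto_one_div_add_atTop_nhds_zero_nat (𝕜 := ℝ)).comp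
              (by rw [← prod_atTop_atTop_eq]; exact tendsto_snd)
          refine squeeze_zero' (Eventually.of_forall fun p => measureReal_nonneg) ?_ hz
          filter_upwards [eventually_ge_atTop (({q.1} : Finset J), q.2)] with p hp
          have hp1 : q.1 ∈ p.1 := hp.1 (Finset.mem_singleton_self _)
          have hp2 : q.2 ≤ p.2 := hp.2
          refine le_trans (measureReal_mono (fun x hx => ?_)) (hs (p.1.filter (· ∈ C)) p.2).le
          intro hx2
          have h3 := hx2 q.1 (by simp [hp1, hq])
          have h4 : 1 / ((q.2 : ℝ) + 1) < |f x q.1 - f y q.1| := hx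
          have h5 : 1 / ((p.2 : ℝ) + 1) ≤ 1 / ((q.2 : ℝ) + 1) := by
            have : (q.2 : ℝ) ≤ p.2 := by exact_mod_cast hp2
            gcongr
          linarith
        · refine tendsto_nhds_of_eventually_eq (Eventually.of_forall fun p => ?_)
          have e1 : f y q.1 = 0 := by
            by_contra h
            exact hq (hC0 h)
          have e2 : (s (p.1.filter (· ∈ C)) p.2 : Measure X) {x | f x q.1 ≠ 0} = 0 := by
            by_contra h
            exact hq (hCcl _ (hsub p.1) (mem_iUnion.2 ⟨p.2, h⟩))
          rw [measureReal_def]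
          have : (s (p.1.filter (· ∈ C)) p.2 : Measure X)
              {x | 1 / ((q.2 : ℝ) + 1) < |f x q.1 - f y q.1|} = 0 := by
            refine measure_mono_null (fun x hx => ?_) e2
            intro h0
            have h4 : 1 / ((q.2 : ℝ) + 1) < |f x q.1 - f y q.1| := hx
            rw [e1, h0, sub_zero, abs_zero] at h4
            have : (0 : ℝ) < 1 / ((q.2 : ℝ) + 1) := by positivity
            linarith
          rw [this]; simp
      refine squeeze_zero (fun p => measureReal_nonneg) (fun p => ?_) hlim
      refine (measureReal_mono ht (measure_ne_top _ _)).trans ?_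
      exact measureReal_biUnion_finset_le _ _
    · exact mem_biUnion (show p.1.filter (· ∈ C) ∈ {F : Finset J | (↑F : Set J) ⊆ C} from hsub p.1)
        ⟨p.2, rfl⟩

end Pool.Agent.Y443.PX
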